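import Pool.Agent.T6.H15.ZP.Basic

/-!
# Zilber's conjecture on intersections with tori: statements
-/

set_option autoImplicit false

open MvPolynomial

namespace Pool.Agent.T6.H15.ZP

section

variable {n : ℕ}

/-- The dimension: the Krull dimension of the ring of the polynomial functions on `X`. -/
noncomputable def kdim (X : Set (Fin n → ℂ)) : WithBot ℕ∞ :=
  ringKrullDim (MvPolynomial (Fin n) ℂ ⧸ idealOf X)

/-- The closed subset of the torus `(ℂ^×)^n` defined by `S`. -/
def zeroSet (S : Set (MvPolynomial (Fin n) ℂ)) : Set (Fin n → ℂ) :=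
  {x | (∀ i, x i ≠ 0) ∧ ∀ p ∈ S, eval x p = 0}

/-- The coset of the algebraic subgroup defined by `L` through the point `ζ`. -/
def coset (L : Submodule ℤ (Fin n → ℤ)) (ζ : Fin n → ℂ) : Set (Fin n → ℂ) :=
  {y | (∀ i, y i ≠ 0) ∧ ∀ a ∈ L, ∏ i, y i ^ a i = ∏ i, ζ i ^ a i}

/-- `L` is saturated: the algebraic subgroup defined by `L` is a torus. -/
def IsSat (L : Submodule ℤ (Fin n → ℤ)) : Prop :=
  ∀ a : Fin n → ℤ, ∀ m : ℤ, m ≠ 0 → m • a ∈ L → a ∈ L

/-- `ζ` is a torsion point. -/
def IsTors (ζ : Fin n → ℂ) : Prop := ∃ m : ℕ, 0 < m ∧ ∀ i, ζ i ^ m = 1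

variable (n)

/-- Zilber's conjecture for the subvarieties of `(ℂ^×)^n`. -/
def Zilber : Prop :=
  ∀ (S : Set (MvPolynomial (Fin n) ℂ)) (V : Set (Fin n → ℂ)), V = zeroSet S → Irred V →
    ∃ (k : ℕ) (L : Fin k → Submodule ℤ (Fin n → ℤ)) (ζ : Fin k → Fin n → ℂ),
      (∀ j, L j ≠ ⊥ ∧ IsSat (L j) ∧ IsTors (ζ j)) ∧
      ∀ (M : Submodule ℤ (Fin n → ℤ)) (η : Fin n → ℂ) (T : Set (Fin n → ℂ)), IsSat M → IsTors η →
        T = coset M η → ∀ X : Set (Fin n → ℂ), X ⊆ V → X ⊆ T → Irred X →
          kdim V + kdim T < kdim X + (n : WithBot ℕ∞) → ∃ j, X ⊆ coset (L j) (ζ j)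

variable {n}

/-- `V` is not contained in a proper special subvariety. -/
def Nondegenerate (V : Set (Fin n → ℂ)) : Prop :=
  ∀ (L : Submodule ℤ (Fin n → ℤ)) (ζ : Fin n → ℂ), L ≠ ⊥ → IsSat L → IsTors ζ → ¬ V ⊆ coset L ζ

/-- `X` is an irreducible subset of the intersection of `V` with a special subvariety `T` such that
`dim X ≥ dim V + dim T - n + t`. -/
def Atypical (V X : Set (Fin n → ℂ)) (t : ℕ) : Prop :=
  X ⊆ V ∧ Irred X ∧ ∃ (M : Submodule ℤ (Fin n → ℤ)) (η : Fin n → ℂ), IsSat M ∧ IsTors η ∧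
    X ⊆ coset M η ∧ kdim V + kdim (coset M η) + (t : WithBot ℕ∞) ≤ kdim X + (n : WithBot ℕ∞)

variable (n)

/-- For every irreducible closed subvariety `V` of `(ℂ^×)^n` which is not contained in a proper special
subvariety there is a polynomial which vanishes on all its atypical subvarieties of excess at
least `t` but not on `V`: the union of these subvarieties is not Zariski dense in `V`. -/
def NotDenseFor (t : ℕ) : Prop :=
  ∀ S : Set (MvPolynomial (Fin n) ℂ), Irred (zeroSet S) → Nondegenerate (zeroSet S) →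
    ∃ f, f ∉ idealOf (zeroSet S) ∧ ∀ X, Atypical (zeroSet S) X t → f ∈ idealOf X

variable {n}

/-- `x` satisfies at least `r` independent multiplicative relations up to roots of unity: for all `a` in
a group of rank at least `r` the number `∏ x_i ^ a_i` is a root of unity. -/
def HasRelations (x : Fin n → ℂ) (r : WithBot ℕ∞) : Prop :=
  ∃ M : Submodule ℤ (Fin n → ℤ), r ≤ ((Module.finrank ℤ M : ℕ) : WithBot ℕ∞) ∧
    ∀ a ∈ M, ∃ m : ℕ, 0 < m ∧ (∏ i, x i ^ a i) ^ m = 1

variable (n)

/-- For every irreducible closed subvariety `V` of `(ℂ^×)^n` which is not contained in a proper special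
subvariety there is a polynomial which does not vanish on `V` but vanishes at all points of `V` with
at least `dim V + t` independent multiplicative relations: these points are not Zariski dense. -/
def PointsNotDense (t : ℕ) : Prop :=
  ∀ S : Set (MvPolynomial (Fin n) ℂ), Irred (zeroSet S) → Nondegenerate (zeroSet S) →
    ∃ f, f ∉ idealOf (zeroSet S) ∧
      ∀ x ∈ zeroSet S, HasRelations x (kdim (zeroSet S) + (t : WithBot ℕ∞)) → eval x f = 0

end

end Pool.Agent.T6.H15.ZP
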