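import Pool.Agent.T6.H15.ZP.Main
import Pool.Agent.T6.H15.ZP.Stmt

/-!
# Reduction to strongly atypical subvarieties: the final statements
-/

set_option autoImplicit false

open MvPolynomial

namespace Pool.Agent.T6.H15.ZP

/-! ### Roots of unity -/

theorem RootU.zpow {c : ℂ} (hc : RootU c) (m : ℤ) : RootU (c ^ m) := by
  obtain ⟨k, hk, h⟩ := hc
  exact ⟨k, hk, by rw [← zpow_natCast, zpow_comm, zpow_natCast, h, one_zpow]⟩

theorem RootU.one : RootU 1 := ⟨1, one_pos, one_pow 1⟩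

theorem RootU.ne_zero {c : ℂ} (hc : RootU c) : c ≠ 0 := by
  rintro rfl
  obtain ⟨k, hk, h⟩ := hc
  rw [zero_pow hk.ne'] at h
  exact zero_ne_one h

theorem RootU.chr {κ : Type} [Fintype κ] {x : κ → ℂ} (hx : ∀ i, RootU (x i)) (a : κ → ℤ) :
    RootU (chr x a) := by
  classical
  unfold ZP.chr
  induction (Finset.univ : Finset κ) using Finset.induction_on with
  | empty => simpa using RootU.one
  | insert i s hi ih =>
    rw [Finset.prod_insert hi]
    exact ((hx i).zpow _).mul ih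

theorem isTors_of_rootU {n : ℕ} {x : Fin n → ℂ} (hx : ∀ i, RootU (x i)) : IsTors x := by
  choose m hm h using hx
  refine ⟨∏ i, m i, Finset.prod_pos fun i _ => hm i, fun i => ?_⟩
  obtain ⟨k, hk⟩ := Finset.dvd_prod_of_mem m (Finset.mem_univ i)
  rw [hk, pow_mul, h, one_pow]

theorem IsTors.rootU {n : ℕ} {x : Fin n → ℂ} (hx : IsTors x) (i : Fin n) : RootU (x i) := by
  obtain ⟨m, hm, h⟩ := hx
  exact ⟨m, hm, h i⟩

/-! ### Special subvarieties -/

section

variable {n : ℕ}

theorem mem_coset {L : Submodule ℤ (Fin n → ℤ)} {ζ y : Fin n → ℂ} :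
    y ∈ coset L ζ ↔ (∀ i, y i ≠ 0) ∧ ∀ a ∈ L, chr y a = chr ζ a := Iff.rfl

theorem chr_adapted {L : Submodule ℤ (Fin n → ℤ)} {e h : ℕ}
    {b : Module.Basis (Fin e ⊕ Fin h) ℤ (Fin n → ℤ)}
    (hb : ∀ a ∈ L, ∀ j, b.repr a (Sum.inr j) = 0) {y : Fin n → ℂ} (hy : ∀ i, y i ≠ 0)
    {a : Fin n → ℤ} (ha : a ∈ L) :
    chr y a = chr (fun i => chr y (b (Sum.inl i))) (fun i => b.repr a (Sum.inl i)) := by
  have h1 : a = ∑ j, b.repr a j • b j := (b.sum_repr a).symm
  conv_lhs => rw [h1, ← chr_mono (fun j => b j) hy]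
  unfold chr
  rw [Fintype.prod_sum_type]
  have h2 : ∏ j, mono (fun j => b j) y (Sum.inr j) ^ b.repr a (Sum.inr j) = 1 :=
    Finset.prod_eq_one fun j _ => by rw [hb a ha j, zpow_zero]
  rw [h2, mul_one]
  rfl

theorem coset_irred_dim {M : Submodule ℤ (Fin n → ℤ)} (hM : IsSat M) {η : Fin n → ℂ}
    (hη : ∀ i, η i ≠ 0) :
    Irred (coset M η) ∧ dim (coset M η) + Module.finrank ℤ M = n := by
  obtain ⟨e, h, b, hb1, hb2, he⟩ := exists_adapted M hM
  obtain ⟨c, hc1, hc2⟩ := exists_inverse b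
  set g : Fin e → ℂ := fun i => chr η (b (Sum.inl i)) with hg
  have hgne : ∀ i, g i ≠ 0 := fun i => chr_ne_zero hη _
  set P : Set (Fin e ⊕ Fin h → ℂ) := prodSet {g} (torus (Fin h)) with hP
  have hPt : InTorus P := by
    intro z hz i
    obtain ⟨w, hw, u, hu, rfl⟩ := exists_elim hz
    rw [Set.mem_singleton_iff] at hw
    subst hw
    rcases i with i | j
    · exact hgne i
    · exact hu j
  have hPi : Irred P := (irred_singleton g).prod irred_torus
  have hPd : dim P = h := by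
    rw [hP, dim_prod (irred_singleton g) irred_torus, dim_singleton, dim_torus, zero_add,
      Fintype.card_fin]
  have hT : coset M η = mono c '' P := by
    ext y
    rw [mem_coset]
    constructor
    · rintro ⟨hy, hyM⟩
      refine ⟨mono (fun j => b j) y, ⟨?_, fun j => mono_ne_zero _ hy _⟩, hc1 ℂ y hy⟩
      rw [Set.mem_singleton_iff]
      funext i
      exact hyM _ (hb1 i)
    · rintro ⟨z, hz, rfl⟩
      have hy : ∀ i, mono c z i ≠ 0 := fun i => mono_ne_zero c (hPt z hz) i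
      refine ⟨hy, fun a ha => ?_⟩
      rw [chr_adapted hb2 hy ha, chr_adapted hb2 hη ha]
      congr 1
      funext i
      have h1 := congrFun (hc2 ℂ z (hPt z hz)) (Sum.inl i)
      have h2 : chr (mono c z) (b (Sum.inl i)) = z (Sum.inl i) := h1
      rw [h2]
      have h3 := hz.1
      rw [Set.mem_singleton_iff] at h3
      exact congrFun h3 i
  have hTb : mono (fun j => b j) '' (coset M η) = P := by
    rw [hT, ← Set.image_comp]
    ext z
    constructor
    · rintro ⟨z, hz, rfl⟩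
      show mono (fun j => b j) (mono c z) ∈ P
      rw [hc2 ℂ z (hPt z hz)]
      exact hz
    · intro hz
      exact ⟨z, hz, hc2 ℂ z (hPt z hz)⟩
  have hTi : Irred (coset M η) := by
    rw [hT]
    exact hPi.mono hPt c
  have hTt : InTorus (coset M η) := fun y hy => hy.1
  refine ⟨hTi, ?_⟩
  have h1 : dim (coset M η) ≤ h := by
    have h0 := dim_mono_le hPi hPt c
    rw [← hT, hPd] at h0
    exact h0
  have h2 : h ≤ dim (coset M η) := by
    have h0 := dim_mono_le hTi hTt (fun j => b j)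
    rw [hTb, hPd] at h0
    exact h0
  have h3 : e + h = n := by
    have h4 := Module.finrank_eq_card_basis b
    rw [Module.finrank_fintype_fun_eq_card] at h4
    simpa using h4.symm
  omega

/-- The characters which are constant on `X` with roots of unity as values. -/
def torsLat (X : Set (Fin n → ℂ)) (ht : InTorus X) : Submodule ℤ (Fin n → ℤ) where
  carrier := {a | ∃ c, RootU c ∧ IsConst X a c}
  zero_mem' := ⟨1, RootU.one, fun x _ => chr_zero x⟩
  add_mem' := by
    rintro a b ⟨c, hc, h1⟩ ⟨d, hd, h2⟩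
    exact ⟨c * d, hc.mul hd, fun x hx => by rw [chr_add (ht x hx), h1 x hx, h2 x hx]⟩
  smul_mem' := by
    rintro m a ⟨c, hc, h1⟩
    exact ⟨c ^ m, hc.zpow m, fun x hx => by rw [chr_zsmul, h1 x hx]⟩

theorem rootU_of_zpow {c : ℂ} {m : ℤ} (hm : m ≠ 0) (h : RootU (c ^ m)) : RootU c := by
  obtain ⟨k, hk, h1⟩ := h
  have h2 : c ^ (m.natAbs * k) = 1 := by
    rcases Int.natAbs_eq m with h3 | h3
    · rw [h3, zpow_natCast] at h1
      rw [pow_mul]
      exact h1
    · rw [h3, zpow_neg, zpow_natCast, inv_pow, inv_eq_one] at h1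
      rw [pow_mul]
      exact h1
  exact ⟨m.natAbs * k, Nat.mul_pos (Int.natAbs_pos.2 hm) hk, h2⟩

theorem torsLat_sat {X : Set (Fin n → ℂ)} (hX : Irred X) (ht : InTorus X) :
    IsSat (torsLat X ht) := by
  rintro a m hm ⟨c, hc, h⟩
  obtain ⟨c', hc', h1⟩ := IsConst.of_smul hX ht hm h
  exact ⟨c', rootU_of_zpow hm (by rw [h1]; exact hc), hc'⟩

/-- The smallest special subvariety which contains `X`. -/
theorem exists_coset {X : Set (Fin n → ℂ)} (hX : Irred X) (ht : InTorus X) :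
    ∃ η : Fin n → ℂ, IsTors η ∧ X ⊆ coset (torsLat X ht) η := by
  obtain ⟨e, h, b, hb1, hb2, he⟩ := exists_adapted (torsLat X ht) (torsLat_sat hX ht)
  obtain ⟨c, hc1, hc2⟩ := exists_inverse b
  choose g hg1 hg2 using hb1
  set u : Fin e ⊕ Fin h → ℂ := Sum.elim g (fun _ => 1) with hu
  have hu1 : ∀ i, RootU (u i) := by
    rintro (i | j)
    · exact hg1 i
    · exact RootU.one
  have hη1 : ∀ i, RootU (mono c u i) := fun i => RootU.chr hu1 _
  refine ⟨mono c u, isTors_of_rootU hη1, fun x hx => ⟨ht x hx, fun a ha => ?_⟩⟩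
  show chr x a = chr (mono c u) a
  rw [chr_adapted hb2 (ht x hx) ha, chr_adapted hb2 (fun i => (hη1 i).ne_zero) ha]
  congr 1
  funext i
  rw [hg2 i x hx]
  have h1 := congrFun (hc2 ℂ u fun i => (hu1 i).ne_zero) (Sum.inl i)
  exact h1.symm

theorem kdim_eq {X : Set (Fin n → ℂ)} (hX : Irred X) : kdim X = (dim X : ℕ) := krull_eq_dim hX

/-- The closure. -/
theorem idealOf_zeroSet {W : Set (Fin n → ℂ)} (ht : InTorus W) :
    idealOf (zeroSet (idealOf W : Set (MvPolynomial (Fin n) ℂ))) = idealOf W := by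
  apply le_antisymm
  · intro f hf
    rw [mem_idealOf] at hf ⊢
    exact fun w hw => hf w ⟨ht w hw, fun p hp => mem_idealOf.1 hp w hw⟩
  · intro f hf
    rw [mem_idealOf]
    exact fun x hx => hx.2 f hf

theorem subset_zeroSet {W : Set (Fin n → ℂ)} (ht : InTorus W) :
    W ⊆ zeroSet (idealOf W : Set (MvPolynomial (Fin n) ℂ)) :=
  fun w hw => ⟨ht w hw, fun _ hp => mem_idealOf.1 hp w hw⟩

theorem IsTors.ne_zero {x : Fin n → ℂ} (hx : IsTors x) (i : Fin n) : x i ≠ 0 := (hx.rootU i).ne_zero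

/-- the first direction, for one subvariety -/
theorem not_dense_of {t : ℕ} (H : NotDenseFor n t) {W : Set (Fin n → ℂ)} (ht : InTorus W)
    (hW : Irred W) (hns : Nonspecial W) : ¬ DenseExcess W t := by
  intro hde
  have hI := idealOf_zeroSet ht
  have hirr : Irred (zeroSet (idealOf W : Set (MvPolynomial (Fin n) ℂ))) := by
    unfold Irred
    rw [hI]
    exact hW
  have hdim : dim (zeroSet (idealOf W : Set (MvPolynomial (Fin n) ℂ))) = dim W := by
    unfold dim
    rw [hI]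
  obtain ⟨f, hf, hall⟩ := H (idealOf W : Set (MvPolynomial (Fin n) ℂ)) hirr (by
    intro L ζ hL _ hζ hsub
    obtain ⟨a, haL, ha0⟩ := (Submodule.ne_bot_iff L).1 hL
    exact hns a ha0 (chr ζ a) (RootU.chr hζ.rootU a) fun w hw =>
      (hsub (subset_zeroSet ht hw)).2 a haL)
  rw [hI] at hf
  obtain ⟨X, ⟨hX, hXW, M, hM, hd⟩, hfX⟩ := hde f hf
  apply hfX
  have htX : InTorus X := fun x hx => ht x (hXW hx)
  obtain ⟨η, hη, hXη⟩ := exists_coset hX htX
  have hle : M ≤ torsLat X htX := fun a ha => hM a ha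
  have hrank := Submodule.finrank_mono hle
  obtain ⟨hTi, hTd⟩ := coset_irred_dim (torsLat_sat hX htX) hη.ne_zero
  refine hall X ⟨hXW.trans (subset_zeroSet ht), hX, _, η, torsLat_sat hX htX, hη, hXη, ?_⟩
  rw [kdim_eq hirr, kdim_eq hTi, kdim_eq hX, hdim]
  have h1 : dim W + dim (coset (torsLat X htX) η) + t ≤ dim X + n := by omega
  exact_mod_cast h1

/-- A character with a primitive exponent vector. -/
theorem exists_primitive {a : Fin n → ℤ} (ha : a ≠ 0) :
    ∃ (d : ℤ) (b u : Fin n → ℤ), d ≠ 0 ∧ a = d • b ∧ ∑ i, u i * b i = 1 := by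
  obtain ⟨d, hd⟩ := (IsPrincipalIdealRing.principal (Ideal.span (Set.range a))).principal
  have hd0 : d ≠ 0 := by
    rintro rfl
    apply ha
    funext i
    have h1 : a i ∈ Ideal.span (Set.range a) := Ideal.subset_span ⟨i, rfl⟩
    rw [hd] at h1
    simpa using h1
  have h1 : ∀ i, ∃ k, a i = d * k := by
    intro i
    have h2 : a i ∈ Ideal.span (Set.range a) := Ideal.subset_span ⟨i, rfl⟩
    rw [hd] at h2
    obtain ⟨k, hk⟩ := Submodule.mem_span_singleton.1 h2
    exact ⟨k, by rw [← hk, smul_eq_mul, mul_comm]⟩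
  choose b hb using h1
  have h2 : d ∈ Ideal.span (Set.range a) := by
    rw [hd]
    exact Submodule.mem_span_singleton_self d
  rw [Ideal.mem_span_range_iff_exists_fun] at h2
  obtain ⟨u, hu⟩ := h2
  refine ⟨d, b, u, hd0, funext fun i => ?_, ?_⟩
  · rw [Pi.smul_apply, smul_eq_mul]
    exact hb i
  · have h3 : d * ∑ i, u i * b i = d * 1 := by
      rw [Finset.mul_sum, mul_one]
      conv_rhs => rw [← hu]
      refine Finset.sum_congr rfl fun i _ => ?_
      rw [hb i]
      ring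
    exact mul_left_cancel₀ hd0 h3

theorem isSat_span {b u : Fin n → ℤ} (hu : ∑ i, u i * b i = 1) :
    IsSat (Submodule.span ℤ {b}) := by
  intro x m hm hx
  rw [Submodule.mem_span_singleton] at hx ⊢
  obtain ⟨k, hk⟩ := hx
  refine ⟨∑ i, u i * x i, ?_⟩
  have h1 : m * ∑ i, u i * x i = k := by
    have h2 : ∑ i, u i * (k * b i) = k := by
      have h3 : ∑ i, u i * (k * b i) = k * ∑ i, u i * b i := by
        rw [Finset.mul_sum]
        exact Finset.sum_congr rfl fun i _ => by ring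
      rw [h3, hu, mul_one]
    rw [← h2, Finset.mul_sum]
    refine Finset.sum_congr rfl fun i _ => ?_
    have h4 := congrFun hk i
    simp only [Pi.smul_apply, smul_eq_mul] at h4
    rw [h4]
    ring
  funext i
  have h5 := congrFun hk i
  simp only [Pi.smul_apply, smul_eq_mul] at h5 ⊢
  have h6 : m * ((∑ i, u i * x i) * b i) = m * x i := by
    rw [← h5, ← h1]
    ring
  exact mul_left_cancel₀ hm h6

/-- The second direction: covering by special subvarieties. -/
theorem zilber_of_covered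
    (H : ∀ V : Set (Fin n → ℂ), InTorus V → Irred V → Covered V) : Zilber n := by
  classical
  rintro S V rfl hV
  have ht : InTorus (zeroSet S) := fun x hx => hx.1
  obtain ⟨E, hE, hE1, hE2⟩ := H _ ht hV
  have hprim : ∀ p : (Fin n → ℤ) × ℂ, p ∈ E → ∃ (d : ℤ) (b u : Fin n → ℤ), d ≠ 0 ∧ p.1 = d • b ∧
      ∑ i, u i * b i = 1 := fun p hp => exists_primitive (hE1 p hp).1
  choose! d b u hd hb hu using hprim
  set F : Set (Submodule ℤ (Fin n → ℤ) × (Fin n → ℂ)) :=
    ⋃ p ∈ E, (fun c : ℂ => (Submodule.span ℤ {b p}, fun i => c ^ u p i)) '' {c | c ^ d p = p.2}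
    with hF
  have hFfin : F.Finite := by
    refine hE.biUnion fun p hp => Set.Finite.image _ ?_
    have h1 : {c : ℂ | c ^ d p = p.2} ⊆
        {c : ℂ | c ^ (d p).natAbs = p.2} ∪ {c : ℂ | c ^ (d p).natAbs = p.2⁻¹} := by
      intro c hc
      rw [Set.mem_setOf_eq] at hc
      rcases Int.natAbs_eq (d p) with h3 | h3
      · left
        rw [h3, zpow_natCast] at hc
        exact hc
      · right
        rw [h3, zpow_neg, zpow_natCast] at hc
        rw [Set.mem_setOf_eq, ← hc, inv_inv]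
    have h2 : ∀ v : ℂ, {c : ℂ | c ^ (d p).natAbs = v}.Finite := by
      intro v
      have h3 : {c : ℂ | c ^ (d p).natAbs = v} ⊆ (Polynomial.nthRoots (d p).natAbs v).toFinset := by
        intro c hc
        rw [Finset.mem_coe, Multiset.mem_toFinset,
          Polynomial.mem_nthRoots (Int.natAbs_pos.2 (hd p hp))]
        exact hc
      exact (Finset.finite_toSet _).subset h3
    exact ((h2 _).union (h2 _)).subset h1
  obtain ⟨k, f, -, hf⟩ := hFfin.fin_param
  have hfF : ∀ j, f j ∈ F := fun j => by rw [← hf]; exact ⟨j, rfl⟩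
  have hchr : ∀ (p : (Fin n → ℤ) × ℂ), p ∈ E → ∀ c : ℂ, c ≠ 0 →
      chr (fun i => c ^ u p i) (b p) = c := by
    intro p hp c hc
    unfold chr
    have h1 : ∀ i ∈ Finset.univ, (c ^ u p i) ^ b p i = c ^ (u p i * b p i) :=
      fun i _ => by rw [zpow_mul]
    rw [Finset.prod_congr rfl h1]
    have h2 : ∀ s : Finset (Fin n), ∏ i ∈ s, c ^ (u p i * b p i) = c ^ (∑ i ∈ s, u p i * b p i) := by
      intro s
      induction s using Finset.induction_on with
      | empty => simp
      | insert i s hi ih => rw [Finset.prod_insert hi, Finset.sum_insert hi, zpow_add₀ hc, ih]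
    rw [h2, hu p hp, zpow_one]
  refine ⟨k, fun j => (f j).1, fun j => (f j).2, fun j => ?_, ?_⟩
  · have h1 := hfF j
    rw [hF] at h1
    simp only [Set.mem_iUnion] at h1
    obtain ⟨p, hp, c, hc, h2⟩ := h1
    show (f j).1 ≠ ⊥ ∧ IsSat (f j).1 ∧ IsTors (f j).2
    rw [← h2]
    refine ⟨?_, isSat_span (hu p hp), ?_⟩
    · rw [Ne, Submodule.span_singleton_eq_bot]
      intro h3
      have h4 := hu p hp
      rw [h3] at h4
      simp at h4
    · apply isTors_of_rootU
      intro i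
      apply RootU.zpow
      apply rootU_of_zpow (hd p hp)
      rw [Set.mem_setOf_eq] at hc
      rw [hc]
      exact (hE1 p hp).2
  · rintro M η T hM hη rfl X hXV hXT hX hlt
    have htX : InTorus X := fun x hx => ht x (hXV hx)
    obtain ⟨hTi, hTd⟩ := coset_irred_dim hM hη.ne_zero
    rw [kdim_eq hV, kdim_eq hTi, kdim_eq hX] at hlt
    have hlt' : dim (zeroSet S) + dim (coset M η) < dim X + n := by exact_mod_cast hlt
    obtain ⟨p, hp, hconst⟩ := hE2 X ⟨hX, hXV, M, fun a ha => ⟨chr η a, RootU.chr hη.rootU a,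
      fun x hx => (hXT hx).2 a ha⟩, by omega⟩
    rw [hb p hp] at hconst
    obtain ⟨c, hc, hcd⟩ := IsConst.of_smul hX htX (hd p hp) hconst
    have hmem : ((Submodule.span ℤ {b p}, fun i => c ^ u p i) :
        Submodule ℤ (Fin n → ℤ) × (Fin n → ℂ)) ∈ F := by
      rw [hF]
      simp only [Set.mem_iUnion]
      exact ⟨p, hp, c, hcd, rfl⟩
    rw [← hf] at hmem
    obtain ⟨j, hj⟩ := hmem
    refine ⟨j, ?_⟩
    show X ⊆ coset (f j).1 (f j).2
    rw [hj]
    have hc0 : c ≠ 0 := by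
      apply RootU.ne_zero
      apply rootU_of_zpow (hd p hp)
      rw [hcd]
      exact (hE1 p hp).2
    intro x hx
    refine ⟨htX x hx, fun a ha => ?_⟩
    obtain ⟨m, rfl⟩ := Submodule.mem_span_singleton.1 ha
    show chr x (m • b p) = chr (fun i => c ^ u p i) (m • b p)
    rw [chr_zsmul, chr_zsmul, hc x hx, hchr p hp c hc0]

end

/-! ### Change of the index set -/

theorem dense_transport {ι κ : Type} [Fintype ι] [Fintype κ] (b : Module.Basis κ ℤ (ι → ℤ))
    {W : Set (ι → ℂ)} (ht : InTorus W) (hW : Irred W) {t : ℕ} (h : DenseExcess W t) :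
    DenseExcess (mono (fun j => b j) '' W) t := by
  intro f hf
  obtain ⟨y, ⟨w, hw, rfl⟩, hfw⟩ := exists_of_not_mem hf
  obtain ⟨H, hH⟩ := exists_pull (fun j => b j) f
  obtain ⟨X, ⟨hX, hXW, M, hM, hdim⟩, hHX⟩ := h H
    (not_mem_of_eval hw (fun h0 => hfw ((hH w (ht w hw)).1 h0)))
  have htX : InTorus X := fun x hx => ht x (hXW hx)
  obtain ⟨x, hx, hHx⟩ := exists_of_not_mem hHX
  refine ⟨mono (fun j => b j) '' X, ⟨hX.mono htX _, Set.image_mono hXW,
    M.comap (b.equivFun.symm : (κ → ℤ) →ₗ[ℤ] (ι → ℤ)), ?_, ?_⟩,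
    not_mem_of_eval ⟨x, hx, rfl⟩ (fun h0 => hHx ((hH x (htX x hx)).2 h0))⟩
  · intro a ha
    obtain ⟨c, hc, h1⟩ := hM _ ha
    refine ⟨c, hc, ?_⟩
    rintro _ ⟨x, hx, rfl⟩
    rw [chr_mono _ (htX x hx), ← h1 x hx]
    congr 1
    exact (Module.Basis.equivFun_symm_apply b a).symm
  · have h1 : Module.finrank ℤ (M.comap (b.equivFun.symm : (κ → ℤ) →ₗ[ℤ] (ι → ℤ))) =
        Module.finrank ℤ M := (LinearEquiv.ofSubmodule' b.equivFun.symm M).finrank_eq
    obtain ⟨c, hc, -⟩ := exists_inverse b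
    have h3 : mono c '' (mono (fun j => b j) '' X) = X := by
      rw [← Set.image_comp]
      ext x
      constructor
      · rintro ⟨y, hy, rfl⟩
        show mono c (mono (fun j => b j) y) ∈ X
        rw [hc ℂ y (htX y hy)]
        exact hy
      · intro hx
        exact ⟨x, hx, hc ℂ x (htX x hx)⟩
    have h5 := dim_mono_le (hX.mono htX (fun j => b j)) (htX.mono _) c
    rw [h3] at h5
    have h6 := dim_mono_le hW ht (fun j => b j)
    rw [h1]
    omega

theorem nonspecial_transport {ι κ : Type} [Fintype ι] [Fintype κ]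
    (b : Module.Basis κ ℤ (ι → ℤ)) {W : Set (ι → ℂ)} (ht : InTorus W) (h : Nonspecial W) :
    Nonspecial (mono (fun j => b j) '' W) := by
  intro a ha c hc hac
  refine h (∑ j, a j • b j) ?_ c hc fun w hw => ?_
  · intro h0
    apply ha
    rw [← Module.Basis.equivFun_symm_apply, LinearEquiv.map_eq_zero_iff] at h0
    exact h0
  · rw [← chr_mono _ (ht w hw)]
    exact hac _ ⟨w, hw, rfl⟩

/-- **First part.** -/
theorem zilber_of_notDense {ε : ℝ} (hε : 0 ≤ ε)
    (H : ∀ m : ℕ, ∃ N, m ≤ N ∧ NotDenseFor N ⌈ε * N⌉₊) {n : ℕ} (hn : ε * n < 1) : Zilber n := by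
  apply zilber_of_covered
  intro V ht hV
  refine covered_of_notDense hε (fun m => ?_) (by rwa [Fintype.card_fin]) V ht hV
  obtain ⟨N, hN, HN⟩ := H m
  refine ⟨N, hN, ?_⟩
  intro ι _ W hcard htW hW hns t hεt hde
  subst hcard
  let b : Module.Basis (Fin (Fintype.card ι)) ℤ (ι → ℤ) :=
    (Pi.basisFun ℤ ι).reindex (Fintype.equivFin ι)
  have h1 := dense_transport b htW hW hde
  have h2 := nonspecial_transport b htW hns
  have h3 : ⌈ε * (Fintype.card ι : ℕ)⌉₊ ≤ t := Nat.ceil_le.2 hεt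
  refine not_dense_of HN (htW.mono _) (hW.mono htW _) h2 fun f hf => ?_
  obtain ⟨X, ⟨hX, hXW, M, hM, hdim⟩, hfX⟩ := h1 f hf
  exact ⟨X, ⟨hX, hXW, M, hM, by omega⟩, hfX⟩

/-- **Second part.** -/
theorem notDense_of_zilber {n t : ℕ} (ht : 1 ≤ t) (H : Zilber n) : NotDenseFor n t := by
  classical
  intro S hV hnd
  obtain ⟨k, L, ζ, hL, hcov⟩ := H S _ rfl hV
  have htV : InTorus (zeroSet S) := fun x hx => hx.1
  have hpol : ∀ j, ∃ f, f ∉ idealOf (zeroSet S) ∧ ∀ x ∈ coset (L j) (ζ j), eval x f = 0 := by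
    intro j
    by_contra hcon
    push Not at hcon
    refine hnd (L j) (ζ j) (hL j).1 (hL j).2.1 (hL j).2.2 fun x hx => ⟨hx.1, fun a ha => ?_⟩
    set c : ℂ := ∏ i, ζ j i ^ a i with hc
    set f : MvPolynomial (Fin n) ℂ := ∏ i, X i ^ (a i).toNat - C c * ∏ i, X i ^ (-a i).toNat with hf
    have hev : ∀ y : Fin n → ℂ, (∀ i, y i ≠ 0) → (eval y f = 0 ↔ ∏ i, y i ^ a i = c) := by
      intro y hy
      have h1 : (∏ i, y i ^ a i) * ∏ i, y i ^ (-a i).toNat = ∏ i, y i ^ (a i).toNat := by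
        rw [← Finset.prod_mul_distrib]
        refine Finset.prod_congr rfl fun i _ => ?_
        rw [← zpow_natCast, ← zpow_natCast, ← zpow_add₀ (hy i)]
        congr 1
        omega
      have h2 : (∏ i, y i ^ (-a i).toNat) ≠ 0 :=
        Finset.prod_ne_zero_iff.2 fun i _ => pow_ne_zero _ (hy i)
      have h3 : eval y f = (∏ i, y i ^ a i - c) * ∏ i, y i ^ (-a i).toNat := by
        rw [hf, sub_mul, h1]
        simp
      rw [h3, mul_eq_zero, sub_eq_zero]
      exact ⟨fun h => h.resolve_right h2, Or.inl⟩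
    by_cases hfV : f ∈ idealOf (zeroSet S)
    · exact (hev x hx.1).1 (mem_idealOf.1 hfV x hx)
    · obtain ⟨y, hy, hyf⟩ := hcon f hfV
      exact absurd ((hev y hy.1).2 (hy.2 a ha)) hyf
  choose F hF1 hF2 using hpol
  refine ⟨∏ j, F j, ?_, ?_⟩
  · have hp : (idealOf (zeroSet S)).IsPrime := hV
    rw [hp.prod_mem_iff]
    rintro ⟨j, -, hj⟩
    exact hF1 j hj
  · rintro X ⟨hXV, hX, M, η, hM, hη, hXη, hdim⟩
    obtain ⟨hTi, -⟩ := coset_irred_dim hM hη.ne_zero
    rw [kdim_eq hV, kdim_eq hTi, kdim_eq hX] at hdim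
    have hdim' : dim (zeroSet S) + dim (coset M η) + t ≤ dim X + n := by exact_mod_cast hdim
    obtain ⟨j, hj⟩ := hcov M η _ hM hη rfl X hXV hXη hX (by
      rw [kdim_eq hV, kdim_eq hTi, kdim_eq hX]
      have h1 : dim (zeroSet S) + dim (coset M η) < dim X + n := by omega
      exact_mod_cast h1)
    rw [mem_idealOf]
    intro x hx
    rw [map_prod]
    exact Finset.prod_eq_zero (Finset.mem_univ j) (hF2 j x (hj hx))

theorem zilber_iff :
    (∀ n, Zilber n) ↔
      ∀ ε : ℝ, 0 < ε → ∀ m : ℕ, ∃ N, m ≤ N ∧ NotDenseFor N ⌈ε * N⌉₊ := by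
  constructor
  · intro H ε hε m
    refine ⟨max m 1, le_max_left _ _, notDense_of_zilber ?_ (H _)⟩
    rw [Nat.one_le_ceil_iff]
    have : (0 : ℝ) < (max m 1 : ℕ) := by
      have h1 : 1 ≤ max m 1 := le_max_right _ _
      exact_mod_cast h1
    positivity
  · intro H n
    refine zilber_of_notDense (ε := 1 / (n + 1)) (by positivity) (H _ (by positivity)) ?_
    rw [div_mul_eq_mul_div, one_mul, div_lt_one (by positivity)]
    linarith

end Pool.Agent.T6.H15.ZP
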