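import Pool.Agent.Helper834.EC.Dim2

/-!
# Irreducible subsets of affine space over the complex numbers: dimension and products
-/

set_option autoImplicit false

open MvPolynomial

namespace Pool.Agent.T6.H15.ZP

section Defs

variable {ι : Type}

/-- The ideal of the polynomials which vanish on `X`. -/
noncomputable def idealOf (X : Set (ι → ℂ)) : Ideal (MvPolynomial ι ℂ) :=
  ⨅ x ∈ X, RingHom.ker (eval x : MvPolynomial ι ℂ →+* ℂ)

/-- `X` is irreducible (in particular not empty). -/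
def Irred (X : Set (ι → ℂ)) : Prop := (idealOf X).IsPrime

/-- The dimension of the Zariski closure of the irreducible set `X`: the transcendence degree of its
coordinate ring. -/
noncomputable def dim (X : Set (ι → ℂ)) : ℕ :=
  Cardinal.toNat (Algebra.trdeg ℂ (MvPolynomial ι ℂ ⧸ idealOf X))

end Defs

variable {ι κ : Type} {X Y : Set (ι → ℂ)}

theorem mem_idealOf {f : MvPolynomial ι ℂ} : f ∈ idealOf X ↔ ∀ x ∈ X, eval x f = 0 := by
  simp [idealOf, Submodule.mem_iInf, RingHom.mem_ker]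

theorem idealOf_mono (h : X ⊆ Y) : idealOf Y ≤ idealOf X := by
  intro f hf
  rw [mem_idealOf] at hf ⊢
  exact fun x hx => hf x (h hx)

theorem Irred.nonempty (hX : Irred X) : X.Nonempty := by
  rw [Set.nonempty_iff_ne_empty]
  rintro rfl
  apply hX.ne_top
  rw [Ideal.eq_top_iff_one, mem_idealOf]
  intro x hx
  exact absurd hx (Set.notMem_empty x)

theorem irred_iff (X : Set (ι → ℂ)) : Irred X ↔ X.Nonempty ∧
    ∀ f g : MvPolynomial ι ℂ, f ∉ idealOf X → g ∉ idealOf X → f * g ∉ idealOf X := by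
  constructor
  · intro h
    refine ⟨h.nonempty, fun f g hf hg hfg => ?_⟩
    rcases h.mem_or_mem hfg with h1 | h1
    · exact hf h1
    · exact hg h1
  · rintro ⟨⟨x, hx⟩, h⟩
    refine ⟨?_, ?_⟩
    · rw [Ne, Ideal.eq_top_iff_one, mem_idealOf]
      intro h1
      simpa using h1 x hx
    · intro f g hfg
      by_contra hc
      push Not at hc
      exact h f g hc.1 hc.2 hfg

/-! ### Independent coordinates -/

/-- The coordinates `f i` are algebraically independent on `X`. -/
def Indep {σ : Type} (X : Set (ι → ℂ)) (f : σ → ι) : Prop :=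
  ∀ p : MvPolynomial σ ℂ, (∀ x ∈ X, eval (fun i => x (f i)) p = 0) → p = 0

theorem aeval_mk {σ : Type} (X : Set (ι → ℂ)) (f : σ → ι) (p : MvPolynomial σ ℂ) :
    aeval (fun i => (Ideal.Quotient.mk (idealOf X) (MvPolynomial.X (f i)) :
      MvPolynomial ι ℂ ⧸ idealOf X)) p = Ideal.Quotient.mk (idealOf X) (rename f p) := by
  have h : (aeval (fun i => (Ideal.Quotient.mk (idealOf X) (MvPolynomial.X (f i)) :
      MvPolynomial ι ℂ ⧸ idealOf X)) : MvPolynomial σ ℂ →ₐ[ℂ] _) =
      (Ideal.Quotient.mkₐ ℂ (idealOf X)).comp (rename f) := by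
    ext i
    simp
  exact DFunLike.congr_fun h p

theorem indep_iff {σ : Type} (X : Set (ι → ℂ)) (f : σ → ι) :
    Indep X f ↔ AlgebraicIndependent ℂ
      (fun i => (Ideal.Quotient.mk (idealOf X) (MvPolynomial.X (f i)) :
        MvPolynomial ι ℂ ⧸ idealOf X)) := by
  rw [algebraicIndependent_iff]
  have h : ∀ p : MvPolynomial σ ℂ, (∀ x ∈ X, eval (fun i => x (f i)) p = 0) ↔
      aeval (fun i => (Ideal.Quotient.mk (idealOf X) (MvPolynomial.X (f i)) :
        MvPolynomial ι ℂ ⧸ idealOf X)) p = 0 := by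
    intro p
    rw [aeval_mk, Ideal.Quotient.eq_zero_iff_mem, mem_idealOf]
    refine forall₂_congr fun x _ => ?_
    rw [eval_rename]
    rfl
  unfold Indep
  refine forall_congr' fun p => ?_
  rw [h p]

section Finite

variable [Finite ι] [Finite κ]

theorem trdeg_eq_dim (hX : Irred X) :
    Algebra.trdeg ℂ (MvPolynomial ι ℂ ⧸ idealOf X) = (dim X : Cardinal) := by
  have : (idealOf X).IsPrime := hX
  have hfin : Algebra.trdeg ℂ (MvPolynomial ι ℂ ⧸ idealOf X) < Cardinal.aleph0 :=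
    trdeg_lt_aleph0_of_finiteType
  unfold dim
  rw [Cardinal.cast_toNat_of_lt_aleph0 hfin]

theorem krull_eq_dim (hX : Irred X) :
    ringKrullDim (MvPolynomial ι ℂ ⧸ idealOf X) = (dim X : ℕ) := by
  have : (idealOf X).IsPrime := hX
  obtain ⟨s, h1, h2⟩ := Helper834.EC.exists_ringKrullDim_eq_trdeg ℂ
    (MvPolynomial ι ℂ ⧸ idealOf X)
  rw [h1]
  rw [trdeg_eq_dim hX] at h2
  have h3 : dim X = s := by exact_mod_cast h2
  rw [h3]

theorem Indep.card_le {σ : Type} [Fintype σ] {f : σ → ι} (h : Indep X f) (hX : Irred X) :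
    Fintype.card σ ≤ dim X := by
  rw [indep_iff] at h
  have h1 := h.cardinalMk_le_trdeg
  rw [trdeg_eq_dim hX, Cardinal.mk_fintype] at h1
  exact_mod_cast h1

theorem exists_indep (hX : Irred X) :
    ∃ s : Finset ι, Indep X (fun i : s => (i : ι)) ∧ s.card = dim X := by
  classical
  have : (idealOf X).IsPrime := hX
  set B := MvPolynomial ι ℂ ⧸ idealOf X with hB
  set z : ι → B := fun i => Ideal.Quotient.mk (idealOf X) (MvPolynomial.X i) with hz
  have hadj : Algebra.adjoin ℂ (Set.range z) = ⊤ := by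
    rw [Algebra.eq_top_iff]
    intro b
    obtain ⟨f, rfl⟩ := Ideal.Quotient.mk_surjective b
    rw [Algebra.adjoin_range_eq_range_aeval]
    refine ⟨f, ?_⟩
    have h := aeval_mk X (id : ι → ι) f
    rw [rename_id] at h
    exact h
  have halg : Algebra.IsAlgebraic (Algebra.adjoin ℂ (Set.range z)) B := by
    refine ⟨fun b => ?_⟩
    have hb : b ∈ Algebra.adjoin ℂ (Set.range z) := by rw [hadj]; trivial
    exact isAlgebraic_algebraMap (⟨b, hb⟩ : Algebra.adjoin ℂ (Set.range z))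
  obtain ⟨t, hts, ht⟩ := exists_isTranscendenceBasis_subset (R := ℂ) (Set.range z)
  have hc : ∀ e : t, ∃ j, z j = e := fun e => hts e.2
  choose c hc using hc
  have hcinj : Function.Injective c := by
    intro e e' hee
    exact Subtype.ext (by rw [← hc e, ← hc e', hee])
  have htfin : Finite t := Finite.of_injective c hcinj
  have : Fintype t := Fintype.ofFinite t
  refine ⟨Finset.univ.image c, ?_, ?_⟩
  · rw [indep_iff]
    have hTt : ∀ j : (Finset.univ.image c : Finset ι), ∃ e : t, c e = j := by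
      rintro ⟨j, hj⟩
      obtain ⟨e, -, he⟩ := Finset.mem_image.1 hj
      exact ⟨e, he⟩
    choose φ hφ using hTt
    have hφinj : Function.Injective φ := by
      intro j j' hjj
      exact Subtype.ext (by rw [← hφ j, ← hφ j', hjj])
    have hzφ : (fun j : (Finset.univ.image c : Finset ι) => z j) = (fun e : t => (e : B)) ∘ φ := by
      funext j
      simp only [Function.comp_apply]
      rw [← hc (φ j), hφ j]
    show AlgebraicIndependent ℂ (fun j : (Finset.univ.image c : Finset ι) => z j)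
    rw [hzφ]
    exact ht.1.comp φ hφinj
  · rw [Finset.card_image_of_injective _ hcinj, Finset.card_univ]
    have h1 := ht.cardinalMk_eq_trdeg
    rw [trdeg_eq_dim hX, Cardinal.mk_fintype] at h1
    exact_mod_cast h1

end Finite

/-! ### Products -/

/-- The product of two sets. -/
def prodSet (W : Set (ι → ℂ)) (V : Set (κ → ℂ)) : Set (ι ⊕ κ → ℂ) :=
  {z | (fun i => z (Sum.inl i)) ∈ W ∧ (fun j => z (Sum.inr j)) ∈ V}

theorem elim_mem {W : Set (ι → ℂ)} {V : Set (κ → ℂ)} {w : ι → ℂ} {v : κ → ℂ} (hw : w ∈ W)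
    (hv : v ∈ V) : Sum.elim w v ∈ prodSet W V := ⟨hw, hv⟩

theorem exists_elim {W : Set (ι → ℂ)} {V : Set (κ → ℂ)} {z : ι ⊕ κ → ℂ} (hz : z ∈ prodSet W V) :
    ∃ w ∈ W, ∃ v ∈ V, z = Sum.elim w v :=
  ⟨_, hz.1, _, hz.2, by funext i; cases i <;> rfl⟩

theorem mem_ideal_prod {W : Set (ι → ℂ)} {V : Set (κ → ℂ)} {f : MvPolynomial (ι ⊕ κ) ℂ} :
    f ∈ idealOf (prodSet W V) ↔ ∀ w ∈ W, ∀ v ∈ V, eval (Sum.elim w v) f = 0 := by
  rw [mem_idealOf]
  constructor
  · intro h w hw v hv
    exact h _ (elim_mem hw hv)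
  · intro h z hz
    obtain ⟨w, hw, v, hv, rfl⟩ := exists_elim hz
    exact h w hw v hv

/-- The polynomial `f(·, v)`. -/
noncomputable def fixR (v : κ → ℂ) : MvPolynomial (ι ⊕ κ) ℂ →ₐ[ℂ] MvPolynomial ι ℂ :=
  aeval (Sum.elim MvPolynomial.X (fun j => C (v j)))

/-- The polynomial `f(w, ·)`. -/
noncomputable def fixL (w : ι → ℂ) : MvPolynomial (ι ⊕ κ) ℂ →ₐ[ℂ] MvPolynomial κ ℂ :=
  aeval (Sum.elim (fun i => C (w i)) MvPolynomial.X)

theorem eval_fixR (w : ι → ℂ) (v : κ → ℂ) (f : MvPolynomial (ι ⊕ κ) ℂ) :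
    eval w (fixR v f) = eval (Sum.elim w v) f := by
  rw [← aeval_eq_eval, ← aeval_eq_eval]
  have h : (aeval w).comp (fixR v : MvPolynomial (ι ⊕ κ) ℂ →ₐ[ℂ] MvPolynomial ι ℂ) =
      (aeval (Sum.elim w v) : MvPolynomial (ι ⊕ κ) ℂ →ₐ[ℂ] ℂ) := by
    ext i
    rcases i with i | j <;> simp [fixR]
  exact DFunLike.congr_fun h f

theorem eval_fixL (w : ι → ℂ) (v : κ → ℂ) (f : MvPolynomial (ι ⊕ κ) ℂ) :
    eval v (fixL w f) = eval (Sum.elim w v) f := by
  rw [← aeval_eq_eval, ← aeval_eq_eval]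
  have h : (aeval v).comp (fixL w : MvPolynomial (ι ⊕ κ) ℂ →ₐ[ℂ] MvPolynomial κ ℂ) =
      (aeval (Sum.elim w v) : MvPolynomial (ι ⊕ κ) ℂ →ₐ[ℂ] ℂ) := by
    ext i
    rcases i with i | j <;> simp [fixL]
  exact DFunLike.congr_fun h f

theorem exists_of_not_mem {f : MvPolynomial ι ℂ} (h : f ∉ idealOf X) : ∃ x ∈ X, eval x f ≠ 0 := by
  rw [mem_idealOf] at h
  push Not at h
  exact h

theorem not_mem_of_eval {f : MvPolynomial ι ℂ} {x : ι → ℂ} (hx : x ∈ X) (h : eval x f ≠ 0) :
    f ∉ idealOf X := fun h1 => h (mem_idealOf.1 h1 x hx)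

theorem Irred.prod {W : Set (ι → ℂ)} {V : Set (κ → ℂ)} (hW : Irred W) (hV : Irred V) :
    Irred (prodSet W V) := by
  rw [irred_iff]
  obtain ⟨w0, hw0⟩ := hW.nonempty
  obtain ⟨v0, hv0⟩ := hV.nonempty
  refine ⟨⟨_, elim_mem hw0 hv0⟩, fun f g hf hg hfg => ?_⟩
  obtain ⟨z1, hz1, h1⟩ := exists_of_not_mem hf
  obtain ⟨z2, hz2, h2⟩ := exists_of_not_mem hg
  obtain ⟨w1, hw1, v1, hv1, rfl⟩ := exists_elim hz1
  obtain ⟨w2, hw2, v2, hv2, rfl⟩ := exists_elim hz2
  have h3 : fixL w1 f * fixL w2 g ∉ idealOf V :=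
    ((irred_iff V).1 hV).2 _ _ (not_mem_of_eval hv1 (by rwa [eval_fixL]))
      (not_mem_of_eval hv2 (by rwa [eval_fixL]))
  obtain ⟨v, hv, h4⟩ := exists_of_not_mem h3
  rw [map_mul, eval_fixL, eval_fixL] at h4
  have h5 : fixR v f * fixR v g ∉ idealOf W :=
    ((irred_iff W).1 hW).2 _ _
      (not_mem_of_eval hw1 (by rw [eval_fixR]; exact left_ne_zero_of_mul h4))
      (not_mem_of_eval hw2 (by rw [eval_fixR]; exact right_ne_zero_of_mul h4))
  obtain ⟨w, hw, h6⟩ := exists_of_not_mem h5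
  rw [map_mul, eval_fixR, eval_fixR, ← map_mul] at h6
  exact h6 (mem_ideal_prod.1 hfg w hw v hv)

theorem Indep.prod {σ τ : Type} {W : Set (ι → ℂ)} {V : Set (κ → ℂ)} {f : σ → ι} {g : τ → κ}
    (hf : Indep W f) (hg : Indep V g) : Indep (prodSet W V) (Sum.map f g) := by
  intro p hp
  set P := sumAlgEquiv ℂ σ τ p with hP
  have key : ∀ (a : σ → ℂ) (b : τ → ℂ), eval a (MvPolynomial.map (eval b) P) =
      eval (Sum.elim a b) p := by
    intro a b
    have h : ((eval a).comp (MvPolynomial.map (eval b))).comp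
        (RingHomClass.toRingHom (sumAlgEquiv ℂ σ τ)) =
        (eval (Sum.elim a b) : MvPolynomial (σ ⊕ τ) ℂ →+* ℂ) := by
      ext i
      · simp [sumAlgEquiv_C_inl]
      · rcases i with i | j
        · simp [sumAlgEquiv_X_inl]
        · simp [sumAlgEquiv_X_inr]
    exact DFunLike.congr_fun h p
  have h1 : P = 0 := by
    ext m : 1
    rw [coeff_zero]
    apply hg
    intro v hv
    have h2 : MvPolynomial.map (eval (fun j => v (g j))) P = 0 := by
      apply hf
      intro w hw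
      rw [key]
      have h3 := hp _ (elim_mem hw hv)
      have h4 : (fun i => Sum.elim w v (Sum.map f g i)) =
          Sum.elim (fun i => w (f i)) (fun j => v (g j)) := by
        funext i
        rcases i with i | j <;> rfl
      rwa [h4] at h3
    have h5 : coeff m (MvPolynomial.map (eval (fun j => v (g j))) P) = 0 := by rw [h2, coeff_zero]
    rwa [coeff_map] at h5
  exact (map_eq_zero_iff _ (sumAlgEquiv ℂ σ τ).injective).1 h1

theorem Indep.left {σ : Type} {W : Set (ι → ℂ)} {V : Set (κ → ℂ)} {s : Finset (ι ⊕ κ)}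
    (hs : Indep (prodSet W V) (fun i : s => (i : ι ⊕ κ))) {f : σ → ι} (hf : Function.Injective f)
    (hfs : ∀ i, Sum.inl (f i) ∈ s) : Indep W f := by
  intro p hp
  have hinj : Function.Injective (fun i => (⟨Sum.inl (f i), hfs i⟩ : s)) := by
    intro i j hij
    apply hf
    simpa using hij
  apply rename_injective _ hinj
  rw [map_zero]
  apply hs
  intro z hz
  obtain ⟨w, hw, v, hv, rfl⟩ := exists_elim hz
  rw [eval_rename]
  exact hp w hw

theorem Indep.right {σ : Type} {W : Set (ι → ℂ)} {V : Set (κ → ℂ)} {s : Finset (ι ⊕ κ)}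
    (hs : Indep (prodSet W V) (fun i : s => (i : ι ⊕ κ))) {f : σ → κ} (hf : Function.Injective f)
    (hfs : ∀ i, Sum.inr (f i) ∈ s) : Indep V f := by
  intro p hp
  have hinj : Function.Injective (fun i => (⟨Sum.inr (f i), hfs i⟩ : s)) := by
    intro i j hij
    apply hf
    simpa using hij
  apply rename_injective _ hinj
  rw [map_zero]
  apply hs
  intro z hz
  obtain ⟨w, hw, v, hv, rfl⟩ := exists_elim hz
  rw [eval_rename]
  exact hp v hv

theorem dim_prod [Finite ι] [Finite κ] {W : Set (ι → ℂ)} {V : Set (κ → ℂ)} (hW : Irred W)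
    (hV : Irred V) : dim (prodSet W V) = dim W + dim V := by
  classical
  apply le_antisymm
  · obtain ⟨s, hs, hc⟩ := exists_indep (hW.prod hV)
    rw [← hc, ← Finset.card_toLeft_add_card_toRight]
    apply add_le_add
    · have h := (hs.left (f := fun i : s.toLeft => (i : ι)) Subtype.val_injective
        (fun i => Finset.mem_toLeft.1 i.2)).card_le hW
      simpa using h
    · have h := (hs.right (f := fun i : s.toRight => (i : κ)) Subtype.val_injective
        (fun i => Finset.mem_toRight.1 i.2)).card_le hV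
      simpa using h
  · obtain ⟨s, hs, hc⟩ := exists_indep hW
    obtain ⟨t, ht, hd⟩ := exists_indep hV
    have h := (hs.prod ht).card_le (hW.prod hV)
    rw [← hc, ← hd]
    simpa using h

/-! ### Strict inclusions -/

theorem dim_lt [Finite ι] (hX : Irred X) (hY : Irred Y) (h : idealOf Y ≤ idealOf X)
    {f : MvPolynomial ι ℂ} (hf : f ∈ idealOf X) (hf' : f ∉ idealOf Y) : dim X < dim Y := by
  have : (idealOf X).IsPrime := hX
  have : (idealOf Y).IsPrime := hY
  have h1 := krull_eq_dim hX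
  have h2 := krull_eq_dim hY
  set B := MvPolynomial ι ℂ ⧸ idealOf Y with hB
  set r : B := Ideal.Quotient.mk (idealOf Y) f with hr
  have hr0 : r ≠ 0 := by
    rw [hr, Ne, Ideal.Quotient.eq_zero_iff_mem]
    exact hf'
  have h3 := ringKrullDim_quotient_succ_le_of_nonZeroDivisor (mem_nonZeroDivisors_of_ne_zero hr0)
  have h4 : ringKrullDim (MvPolynomial ι ℂ ⧸ idealOf X) ≤ ringKrullDim (B ⧸ Ideal.span {r}) := by
    let φ : B ⧸ Ideal.span {r} →+* MvPolynomial ι ℂ ⧸ idealOf X :=
      Ideal.Quotient.lift _ (Ideal.Quotient.factor h) (by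
        intro a ha
        rw [Ideal.mem_span_singleton'] at ha
        obtain ⟨b, rfl⟩ := ha
        rw [map_mul, hr, Ideal.Quotient.factor_mk, Ideal.Quotient.eq_zero_iff_mem.2 hf, mul_zero])
    apply ringKrullDim_le_of_surjective φ
    intro y
    obtain ⟨g, rfl⟩ := Ideal.Quotient.mk_surjective y
    exact ⟨Ideal.Quotient.mk _ (Ideal.Quotient.mk _ g), rfl⟩
  have h5 : ((dim X : ℕ) : WithBot ℕ∞) + 1 ≤ ((dim Y : ℕ) : WithBot ℕ∞) := by
    rw [← h1, ← h2]
    exact le_trans (add_le_add_left h4 1) h3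
  have h6 : dim X + 1 ≤ dim Y := by exact_mod_cast h5
  omega

end Pool.Agent.T6.H15.ZP
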