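import Pool.Agent.T6.H15.ZP.Power

/-!
# Reduction to strongly atypical subvarieties
-/

set_option autoImplicit false

open MvPolynomial

namespace Pool.Agent.T6.H15.ZP

/-- A polynomial in monomials corresponds to a polynomial. -/
theorem exists_pull {ι κ : Type} [Fintype ι] [Finite κ] (b : κ → ι → ℤ) (G : MvPolynomial κ ℂ) :
    ∃ H : MvPolynomial ι ℂ, ∀ x : ι → ℂ, (∀ i, x i ≠ 0) →
      (eval x H = 0 ↔ eval (mono b x) G = 0) := by
  obtain ⟨N, hN⟩ := exists_bound b
  obtain ⟨e, H, hH⟩ := Helper834.EC.clear_denom ((∏ i, MvPolynomial.X i) ^ N :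
    MvPolynomial ι ℂ) (shifted N b) G
  refine ⟨H, fun x hx => ?_⟩
  have hφ : ∀ i, (aeval x : MvPolynomial ι ℂ →ₐ[ℂ] ℂ) (MvPolynomial.X i) ≠ 0 := fun i => by
    rw [aeval_X]; exact hx i
  have h0 : (aeval x : MvPolynomial ι ℂ →ₐ[ℂ] ℂ) ((∏ i, MvPolynomial.X i) ^ N) ≠ 0 := by
    rw [map_pow, map_prod]
    exact pow_ne_zero _ (Finset.prod_ne_zero_iff.2 fun i _ => hφ i)
  have h1 := hH ℂ (aeval x) h0
  have h2 : (fun t => (aeval x : MvPolynomial ι ℂ →ₐ[ℂ] ℂ) (shifted N b t) /
      (aeval x : MvPolynomial ι ℂ →ₐ[ℂ] ℂ) ((∏ i, MvPolynomial.X i) ^ N)) = mono b x := by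
    funext j
    have h3 := shifted_div (hN j) (aeval x : MvPolynomial ι ℂ →ₐ[ℂ] ℂ) hφ
    simp only [aeval_X] at h3
    exact h3
  rw [h2] at h1
  rw [← aeval_eq_eval, ← aeval_eq_eval, h1, mul_eq_zero]
  constructor
  · rintro (h3 | h3)
    · exact absurd h3 (pow_ne_zero _ h0)
    · exact h3
  · exact Or.inr

section

variable {ι : Type} [Fintype ι]

/-- The characters which are constant on `V`. -/
def constLat (V : Set (ι → ℂ)) (ht : InTorus V) : Submodule ℤ (ι → ℤ) where
  carrier := {a | ∃ c, IsConst V a c}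
  zero_mem' := ⟨1, fun x _ => chr_zero x⟩
  add_mem' := by
    rintro a b ⟨c, hc⟩ ⟨d, hd⟩
    exact ⟨c * d, fun x hx => by rw [chr_add (ht x hx), hc x hx, hd x hx]⟩
  smul_mem' := by
    rintro m a ⟨c, hc⟩
    exact ⟨c ^ m, fun x hx => by rw [chr_zsmul, hc x hx]⟩

/-- The change of coordinates. -/
theorem exists_split {V : Set (ι → ℂ)} (hV : Irred V) (ht : InTorus V) (hns : Nonspecial V)
    (hd : DenseExcess V 1) :
    ∃ (e h : ℕ) (g : Fin e → ℂ) (V' : Set (Fin h → ℂ)), Split g V' ∧
      e + h = Fintype.card ι ∧ 0 < h := by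
  classical
  obtain ⟨e, h, b, hb1, hb2, -⟩ := exists_adapted (constLat V ht) (by
    rintro a m hm ⟨c, hc⟩
    obtain ⟨c', hc', -⟩ := IsConst.of_smul hV ht hm hc
    exact ⟨c', hc'⟩)
  obtain ⟨v0, hv0⟩ := hV.nonempty
  choose g hg using hb1
  have hgv : ∀ v ∈ V, ∀ i, chr v (b (Sum.inl i)) = g i := fun v hv i => hg i v hv
  have hgne : ∀ i, g i ≠ 0 := by
    intro i
    rw [← hgv v0 hv0 i]
    exact chr_ne_zero (ht v0 hv0) _
  set b' : Fin h → ι → ℤ := fun j => b (Sum.inr j) with hb'
  have hmono : ∀ v ∈ V, mono (fun j => b j) v = Sum.elim g (mono b' v) := by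
    intro v hv
    funext j
    rcases j with j | j
    · exact hgv v hv j
    · rfl
  have hcard : e + h = Fintype.card ι := by
    have h1 := Module.finrank_eq_card_basis b
    rw [Module.finrank_fintype_fun_eq_card] at h1
    simpa using h1.symm
  have hS : Split g (mono b' '' V) := by
    refine ⟨hgne, ht.mono b', hV.mono ht b', ?_, ?_, ?_⟩
    · intro a ha hroot
      have h1 : (∑ i, a i • b (Sum.inl i)) ≠ 0 := by
        intro h2
        apply ha
        funext i
        have h3 := congrArg (fun y => b.repr y (Sum.inl i)) h2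
        simp only [map_sum, map_smul, Module.Basis.repr_self, Finsupp.finsetSum_apply,
          Finsupp.smul_apply, map_zero, Finsupp.zero_apply] at h3
        simpa [Finsupp.single_apply] using h3
      refine hns _ h1 (chr g a) hroot fun v hv => ?_
      rw [← chr_mono (fun i => b (Sum.inl i)) (ht v hv)]
      congr 1
      funext i
      exact hgv v hv i
    · intro a ha c hc
      apply ha
      have h1 : (∑ j, a j • b' j) ∈ constLat V ht :=
        ⟨c, fun v hv => by rw [← chr_mono _ (ht v hv)]; exact hc _ ⟨v, hv, rfl⟩⟩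
      funext j
      have h2 := hb2 _ h1 j
      simp only [map_sum, map_smul, hb', Module.Basis.repr_self, Finsupp.finsetSum_apply,
        Finsupp.smul_apply] at h2
      simpa [Finsupp.single_apply] using h2
    · intro f hf
      obtain ⟨y, ⟨v, hv, rfl⟩, hfv⟩ := exists_of_not_mem hf
      obtain ⟨H, hH⟩ := exists_pull b' f
      obtain ⟨X, ⟨hX, hXV, M, hM, hdim⟩, hHX⟩ := hd H
        (not_mem_of_eval hv (fun h0 => hfv ((hH v (ht v hv)).1 h0)))
      have htX : InTorus X := fun x hx => ht x (hXV hx)
      obtain ⟨x, hx, hHx⟩ := exists_of_not_mem hHX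
      refine ⟨mono b' '' X, hX.mono htX b', Set.image_mono hXV,
        not_mem_of_eval ⟨x, hx, rfl⟩ (fun h0 => hHx ((hH x (htX x hx)).2 h0)),
        M.comap (b.equivFun.symm : (Fin e ⊕ Fin h → ℤ) →ₗ[ℤ] (ι → ℤ)), ?_, ?_⟩
      · intro a ha
        obtain ⟨c, hc, h1⟩ := hM _ ha
        refine ⟨c, hc, fun z hz => ?_⟩
        obtain ⟨w, hw, y, hy, rfl⟩ := exists_elim hz
        obtain ⟨x, hx, rfl⟩ := hy
        rw [Set.mem_singleton_iff] at hw
        subst hw
        rw [← hmono x (hXV hx), chr_mono _ (htX x hx), ← h1 x hx]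
        congr 1
        exact (Module.Basis.equivFun_symm_apply b a).symm
      · have h1 : Module.finrank ℤ (M.comap (b.equivFun.symm :
            (Fin e ⊕ Fin h → ℤ) →ₗ[ℤ] (ι → ℤ))) = Module.finrank ℤ M :=
          (LinearEquiv.ofSubmodule' b.equivFun.symm M).finrank_eq
        have h2 : dim X ≤ dim (mono b' '' X) := by
          obtain ⟨c, hc, -⟩ := exists_inverse b
          have h3 : mono c '' (mono (fun j => b j) '' X) = X := by
            rw [← Set.image_comp]
            ext x
            constructor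
            · rintro ⟨y, hy, rfl⟩
              show mono c (mono (fun j => b j) y) ∈ X
              rw [hc ℂ y (htX y hy)]
              exact hy
            · intro hx
              exact ⟨x, hx, hc ℂ x (htX x hx)⟩
          have h4 : mono (fun j => b j) '' X = prodSet {g} (mono b' '' X) := by
            ext z
            constructor
            · rintro ⟨x, hx, rfl⟩
              rw [hmono x (hXV hx)]
              exact elim_mem rfl ⟨x, hx, rfl⟩
            · intro hz
              obtain ⟨w, hw, y, ⟨x, hx, rfl⟩, rfl⟩ := exists_elim hz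
              rw [Set.mem_singleton_iff] at hw
              subst hw
              exact ⟨x, hx, hmono x (hXV hx)⟩
          have h5 := dim_mono_le (hX.mono htX (fun j => b j)) (htX.mono _) c
          rw [h3, h4, dim_prod (irred_singleton g) (hX.mono htX b'), dim_singleton, zero_add] at h5
          exact h5
        have h6 := dim_mono_le hV ht b'
        rw [h1]
        omega
  refine ⟨e, h, g, _, hS, hcard, ?_⟩
  rw [Nat.pos_iff_ne_zero]
  rintro rfl
  obtain ⟨X', hX', hX'V, -, M, hM, hdim⟩ := hS.dense 1 (by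
    obtain ⟨y, hy⟩ := hS.irred.nonempty
    exact not_mem_of_eval hy (by simp))
  have h1 : M = ⊥ := by
    rw [Submodule.eq_bot_iff]
    intro a ha
    obtain ⟨c, hc, h2⟩ := hM a ha
    obtain ⟨x', hx'⟩ := hX'.nonempty
    have h3 := h2 _ (elim_mem rfl hx')
    rw [chr_elim] at h3
    have h4 : chr x' (fun j => a (Sum.inr j)) = 1 := by simp [chr]
    rw [h4, mul_one] at h3
    by_contra hne
    refine hS.indep (fun i => a (Sum.inl i)) (fun h5 => hne ?_) (by rw [h3]; exact hc)
    funext i
    rcases i with i | j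
    · exact congrFun h5 i
    · exact j.elim0
  rw [h1, finrank_bot] at hdim
  have h2 := dim_mono_set hX' hS.irred hX'V
  omega

/-- The finitely many special hypersurfaces in `E` contain all irreducible subsets of `V` of excess at
least one. -/
def Covered (V : Set (ι → ℂ)) : Prop :=
  ∃ E : Set ((ι → ℤ) × ℂ), E.Finite ∧ (∀ p ∈ E, p.1 ≠ 0 ∧ RootU p.2) ∧
    ∀ X, HasExcess V X 1 → ∃ p ∈ E, IsConst X p.1 p.2

end

theorem covered_of_not_dense {ι : Type} [Fintype ι] {V : Set (ι → ℂ)} (ht : InTorus V)
    (hV : Irred V) (hnd : ¬ DenseExcess V 1)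
    (ih : ∀ U : Set (ι → ℂ), InTorus U → Irred U → dim U < dim V → Covered U) : Covered V := by
  classical
  unfold DenseExcess at hnd
  push Not at hnd
  obtain ⟨f, hf, hall⟩ := hnd
  set U : Set (ι → ℂ) := {x | ∃ X, HasExcess V X 1 ∧ x ∈ X} with hU
  have hUV : U ⊆ V := by
    rintro x ⟨X, hX, hx⟩
    exact hX.2.1 hx
  have hfU : f ∈ idealOf U := by
    rw [mem_idealOf]
    rintro x ⟨X, hX, hx⟩
    exact mem_idealOf.1 (hall X hX) x hx
  have hvan : vanishingIdeal ℂ U = idealOf U := by
    ext p
    rw [mem_vanishingIdeal_iff, mem_idealOf]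
    simp only [aeval_eq_eval]
  have hfin : (idealOf U).minimalPrimes.Finite :=
    Ideal.finite_minimalPrimes_of_isNoetherianRing _ _
  let piece : Ideal (MvPolynomial ι ℂ) → Set (ι → ℂ) := fun P => {x | x ∈ U ∧ ∀ p ∈ P, eval x p = 0}
  have hpiece : ∀ P ∈ (idealOf U).minimalPrimes, idealOf (piece P) = P := by
    intro P hP
    apply le_antisymm
    · intro p hp
      by_contra hpP
      rw [← hvan] at hP
      obtain ⟨z, hz, h1, h2⟩ := Helper834.EC.minprime_pt U P hP p hpP
      rw [mem_idealOf] at hp
      apply h2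
      rw [aeval_eq_eval]
      exact hp z ⟨hz, fun q hq => by rw [← aeval_eq_eval]; exact h1 q hq⟩
    · intro p hp
      rw [mem_idealOf]
      exact fun x hx => hx.2 p hp
  have hcov : ∀ P ∈ (idealOf U).minimalPrimes, Covered (piece P) := by
    intro P hP
    have hirr : Irred (piece P) := by
      unfold Irred
      rw [hpiece P hP]
      exact hP.1.1
    apply ih
    · exact fun x hx => ht x (hUV hx.1)
    · exact hirr
    · apply dim_lt hirr hV (idealOf_mono (fun x hx => hUV hx.1)) (f := f)
      · rw [hpiece P hP]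
        exact hP.1.2 hfU
      · exact hf
  choose! E hE using hcov
  refine ⟨⋃ P ∈ (idealOf U).minimalPrimes, E P, hfin.biUnion fun P hP => (hE P hP).1, ?_, ?_⟩
  · intro p hp
    simp only [Set.mem_iUnion] at hp
    obtain ⟨P, hP, hp⟩ := hp
    exact (hE P hP).2.1 p hp
  · intro X hX
    have hXU : X ⊆ U := fun x hx => ⟨X, hX, hx⟩
    have hXp : (idealOf X).IsPrime := hX.1
    obtain ⟨P, hP, hPX⟩ := Ideal.exists_minimalPrimes_le (idealOf_mono hXU)
    have hXP : X ⊆ piece P := fun x hx => ⟨hXU hx, fun p hp => mem_idealOf.1 (hPX hp) x hx⟩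
    have hirr : Irred (piece P) := by
      unfold Irred
      rw [hpiece P hP]
      exact hP.1.1
    have hle : dim (piece P) ≤ dim V := dim_mono_set hirr hV fun x hx => hUV hx.1
    obtain ⟨h1, h2, M, hM, hdim⟩ := hX
    obtain ⟨p, hp, h3⟩ := (hE P hP).2.2 X ⟨h1, hXP, M, hM, by omega⟩
    exact ⟨p, by simp only [Set.mem_iUnion]; exact ⟨P, hP, hp⟩, h3⟩

/-- all points with nonzero coordinates -/
def torus (κ : Type) : Set (κ → ℂ) := {y | ∀ j, y j ≠ 0}

theorem indep_torus {κ : Type} [Finite κ] : Indep (torus κ) (fun i : κ => i) := by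
  intro p hp
  have h1 := MvPolynomial.funext_set (p := p) (q := 0) (fun _ : κ => ({0}ᶜ : Set ℂ))
    (fun _ => (Set.finite_singleton (0 : ℂ)).infinite_compl) (by
      intro x hx
      rw [map_zero]
      refine hp x fun j => ?_
      have := hx j (Set.mem_univ j)
      simpa using this)
  exact h1

theorem irred_torus {κ : Type} [Finite κ] : Irred (torus κ) := by
  have h : idealOf (torus κ) = ⊥ := by
    rw [Submodule.eq_bot_iff]
    intro p hp
    exact indep_torus p fun x hx => mem_idealOf.1 hp x hx
  unfold Irred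
  rw [h]
  exact Ideal.isPrime_bot

theorem dim_torus {κ : Type} [Fintype κ] : dim (torus κ) = Fintype.card κ := by
  apply le_antisymm
  · obtain ⟨s, -, hc⟩ := exists_indep (irred_torus (κ := κ))
    rw [← hc]
    exact Finset.card_le_univ s
  · exact indep_torus.card_le irred_torus

section Pad

variable {ι : Type} [Fintype ι] {W : Set (ι → ℂ)} (j : ℕ)

theorem pad_torus (ht : InTorus W) : InTorus (prodSet W (torus (Fin j))) := by
  rintro z hz i
  obtain ⟨w, hw, v, hv, rfl⟩ := exists_elim hz
  rcases i with i | i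
  · exact ht w hw i
  · exact hv i

theorem pad_nonspecial (ht : InTorus W) (hW : Irred W) (hns : Nonspecial W) :
    Nonspecial (prodSet W (torus (Fin j))) := by
  classical
  intro a ha c hc hac
  have hval : ∀ w ∈ W, ∀ v ∈ torus (Fin j),
      chr w (fun i => a (Sum.inl i)) * chr v (fun i => a (Sum.inr i)) = c := by
    intro w hw v hv
    rw [← chr_elim]
    exact hac _ (elim_mem hw hv)
  have hone : (fun _ : Fin j => (1 : ℂ)) ∈ torus (Fin j) := fun _ => one_ne_zero
  have hchr1 : ∀ b : Fin j → ℤ, chr (fun _ : Fin j => (1 : ℂ)) b = 1 := by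
    intro b
    simp [chr]
  by_cases hl : (fun i => a (Sum.inl i)) = 0
  · obtain ⟨w, hw⟩ := hW.nonempty
    apply ha
    funext i
    rcases i with i | i
    · exact congrFun hl i
    · by_contra hi
      have h1 := hval w hw _ hone
      have hv : (fun k => if k = i then (2 : ℂ) else 1) ∈ torus (Fin j) := by
        intro k
        dsimp only
        split_ifs <;> norm_num
      have h2 := hval w hw _ hv
      rw [← h1, hchr1, mul_one] at h2
      have h3 := (mul_eq_left₀ (chr_ne_zero (ht w hw) _)).1 h2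
      have h4 : chr (fun k => if k = i then (2 : ℂ) else 1) (fun k => a (Sum.inr k)) =
          2 ^ a (Sum.inr i) := by
        unfold chr
        rw [Finset.prod_eq_single i]
        · simp
        · intro k _ hk
          simp [hk]
        · intro h
          exact absurd (Finset.mem_univ i) h
      rw [h4] at h3
      have h5 : ((2 : ℝ) ^ a (Sum.inr i)) = 1 := by
        have h6 := congrArg (fun z : ℂ => ‖z‖) h3
        simpa using h6
      have h6 := (zpow_eq_one_iff_right₀ (by norm_num : (0 : ℝ) ≤ 2) (by norm_num)).1 h5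
      exact hi h6
  · refine hns _ hl c hc fun w hw => ?_
    have h1 := hval w hw _ hone
    rwa [hchr1, mul_one] at h1

theorem pad_dense (hW : Irred W) {k : ℕ} (hd : DenseExcess W k) :
    DenseExcess (prodSet W (torus (Fin j))) k := by
  intro f hf
  obtain ⟨z, hz, hfz⟩ := exists_of_not_mem hf
  obtain ⟨w, hw, v, hv, rfl⟩ := exists_elim hz
  obtain ⟨X, ⟨hX, hXW, M, hM, hdim⟩, hfX⟩ := hd (fixR v f)
    (not_mem_of_eval hw (by rwa [eval_fixR]))
  obtain ⟨x, hx, hfx⟩ := exists_of_not_mem hfX
  rw [eval_fixR] at hfx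
  let φ : (ι → ℤ) →ₗ[ℤ] (ι ⊕ Fin j → ℤ) :=
    { toFun := fun a => Sum.elim a 0
      map_add' := fun a b => by
        funext i
        rcases i with i | i <;> simp
      map_smul' := fun m a => by
        funext i
        rcases i with i | i <;> simp }
  have hφ : Function.Injective φ := by
    intro a b hab
    funext i
    exact congrFun hab (Sum.inl i)
  refine ⟨prodSet X (torus (Fin j)), ⟨hX.prod irred_torus, fun z hz => ⟨hXW hz.1, hz.2⟩,
    M.map φ, ?_, ?_⟩, not_mem_of_eval (elim_mem hx hv) hfx⟩
  · rintro _ ⟨a, ha, rfl⟩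
    obtain ⟨c, hc, h1⟩ := hM a ha
    refine ⟨c, hc, fun z hz => ?_⟩
    obtain ⟨y, hy, u, hu, rfl⟩ := exists_elim hz
    rw [chr_elim, ← h1 y hy]
    show chr y a * chr u (fun _ => 0) = _
    have h2 : chr u (fun _ : Fin j => (0 : ℤ)) = 1 := chr_zero u
    rw [h2, mul_one]
  · rw [← (Submodule.equivMapOfInjective φ hφ M).finrank_eq, dim_prod hW irred_torus,
      dim_prod hX irred_torus]
    omega

end Pad

/-- For infinitely many tori the irreducible subsets of large excess are not dense. -/
def NotDense (ε : ℝ) : Prop :=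
  ∀ m : ℕ, ∃ N, m ≤ N ∧ ∀ (ι : Type) [Fintype ι] (W : Set (ι → ℂ)), Fintype.card ι = N →
    InTorus W → Irred W → Nonspecial W → ∀ t : ℕ, ε * N ≤ t → ¬ DenseExcess W t

/-- **Main theorem.** -/
theorem covered_of_notDense {ε : ℝ} (hε0 : 0 ≤ ε) (H : NotDense ε) {ι : Type}
    [Fintype ι] (hn : ε * Fintype.card ι < 1) (V : Set (ι → ℂ)) (ht : InTorus V) (hV : Irred V) :
    Covered V := by
  induction hd : dim V using Nat.strong_induction_on generalizing V with
  | _ d ih =>
    by_cases hns : Nonspecial V
    · by_cases hde : DenseExcess V 1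
      · exfalso
        obtain ⟨e, h, g, V', hS, hcard, hh⟩ := exists_split hV ht hns hde
        have hε : ε * h < 1 := by
          refine lt_of_le_of_lt ?_ hn
          apply mul_le_mul_of_nonneg_left _ hε0
          have : h ≤ Fintype.card ι := by omega
          exact_mod_cast this
        obtain ⟨K, hK⟩ := exists_nat_ge (ε * (e + h) / (1 - ε * h))
        rw [div_le_iff₀ (by linarith)] at hK
        obtain ⟨N, hN, HN⟩ := H (e + K * h)
        set k := (N - e) / h with hk
        set j := (N - e) % h with hj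
        have hkj : N = e + k * h + j := by
          have h1 := Nat.div_add_mod (N - e) h
          rw [← hk, ← hj] at h1
          have h2 : e ≤ N := by omega
          rw [mul_comm h k] at h1
          omega
        have hjh : j < h := Nat.mod_lt _ hh
        have hKk : K ≤ k := by
          rw [hk, Nat.le_div_iff_mul_le hh]
          omega
        obtain ⟨κ, _, β, W, hW⟩ := exists_power hS k
        refine HN (κ ⊕ Fin j) (prodSet W (torus (Fin j))) ?_ (pad_torus j hW.torus)
          (hW.irred.prod irred_torus) (pad_nonspecial j hW.torus hW.irred (hW.nonspecial hS)) k ?_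
          (pad_dense j hW.irred hW.dense)
        · rw [Fintype.card_sum, Fintype.card_fin, hW.card, hkj]
        · rw [hkj]
          push_cast
          have h1 : (K : ℝ) ≤ k := by exact_mod_cast hKk
          have h2 : (j : ℝ) ≤ h := by exact_mod_cast hjh.le
          have h3 : ε * j ≤ ε * h := mul_le_mul_of_nonneg_left h2 hε0
          nlinarith
      · exact covered_of_not_dense ht hV hde fun U hU1 hU2 hU3 => ih _ (by omega) U hU1 hU2 rfl
    · unfold Nonspecial at hns
      push Not at hns
      obtain ⟨a, ha, c, hc, hac⟩ := hns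
      refine ⟨{(a, c)}, Set.finite_singleton _, ?_, ?_⟩
      · rintro p rfl
        exact ⟨ha, hc⟩
      · intro X hX
        exact ⟨(a, c), rfl, fun x hx => hac x (hX.2.1 hx)⟩

end Pool.Agent.T6.H15.ZP
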