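import Pool.Agent.T6.H15.ZP.Basic

/-!
# Characters of the torus and monomial maps
-/

set_option autoImplicit false

open MvPolynomial

namespace Pool.Agent.T6.H15.ZP

section Chr

variable {ι : Type} [Fintype ι] {F : Type} [Field F]

/-- The value `∏ x_i ^ a_i` of a character. -/
def chr (x : ι → F) (a : ι → ℤ) : F := ∏ i, x i ^ a i

/-- All coordinates of the points of `X` are different from zero. -/
def InTorus (X : Set (ι → F)) : Prop := ∀ x ∈ X, ∀ i, x i ≠ 0

theorem chr_zero (x : ι → F) : chr x 0 = 1 := by simp [chr]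

theorem chr_ne_zero {x : ι → F} (hx : ∀ i, x i ≠ 0) (a : ι → ℤ) : chr x a ≠ 0 :=
  Finset.prod_ne_zero_iff.2 fun i _ => zpow_ne_zero _ (hx i)

theorem chr_add {x : ι → F} (hx : ∀ i, x i ≠ 0) (a b : ι → ℤ) :
    chr x (a + b) = chr x a * chr x b := by
  unfold chr
  rw [← Finset.prod_mul_distrib]
  exact Finset.prod_congr rfl fun i _ => zpow_add₀ (hx i) _ _

theorem chr_zsmul (x : ι → F) (m : ℤ) (a : ι → ℤ) : chr x (m • a) = chr x a ^ m := by
  unfold chr
  rw [← Finset.prod_zpow]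
  refine Finset.prod_congr rfl fun i _ => ?_
  rw [Pi.smul_apply, smul_eq_mul, mul_comm, zpow_mul]

theorem chr_neg (x : ι → F) (a : ι → ℤ) : chr x (-a) = (chr x a)⁻¹ := by
  have h := chr_zsmul x (-1) a
  rwa [neg_one_smul, zpow_neg_one] at h

theorem chr_sum {κ : Type} {x : ι → F} (hx : ∀ i, x i ≠ 0) (s : Finset κ) (v : κ → ι → ℤ) :
    chr x (∑ k ∈ s, v k) = ∏ k ∈ s, chr x (v k) := by
  classical
  induction s using Finset.induction_on with
  | empty => simp [chr_zero]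
  | insert a s ha ih => rw [Finset.sum_insert ha, Finset.prod_insert ha, chr_add hx, ih]

/-- The monomial map. -/
def mono {κ : Type} (b : κ → ι → ℤ) (x : ι → F) : κ → F := fun j => chr x (b j)

theorem mono_ne_zero {κ : Type} (b : κ → ι → ℤ) {x : ι → F} (hx : ∀ i, x i ≠ 0) (j : κ) :
    mono b x j ≠ 0 := chr_ne_zero hx _

theorem InTorus.mono {κ : Type} {X : Set (ι → F)} (hX : InTorus X) (b : κ → ι → ℤ) :
    InTorus (mono b '' X) := by
  rintro _ ⟨x, hx, rfl⟩ j
  exact mono_ne_zero b (hX x hx) j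

theorem chr_mono {κ : Type} [Fintype κ] (b : κ → ι → ℤ) {x : ι → F} (hx : ∀ i, x i ≠ 0)
    (a : κ → ℤ) : chr (mono b x) a = chr x (∑ j, a j • b j) := by
  rw [chr_sum hx]
  show ∏ j, chr x (b j) ^ a j = _
  exact Finset.prod_congr rfl fun j _ => (chr_zsmul _ _ _).symm

theorem chr_single [DecidableEq ι] (x : ι → F) (j : ι) : chr x (Pi.single j (1 : ℤ)) = x j := by
  rw [chr, Finset.prod_eq_single j]
  · simp
  · intro i _ hi
    rw [Pi.single_eq_of_ne hi, zpow_zero]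
  · intro h
    exact absurd (Finset.mem_univ j) h

end Chr

section Generic

variable {ι : Type} [Fintype ι] {X : Set (ι → ℂ)}

/-- The fraction field of the coordinate ring, with the generic point `z`. -/
theorem exists_generic (hX : Irred X) (ht : InTorus X) :
    ∃ (Ω : Type) (_ : Field Ω) (_ : Algebra ℂ Ω) (ev : MvPolynomial ι ℂ →ₐ[ℂ] Ω),
      (∀ f, ev f = 0 ↔ f ∈ idealOf X) ∧ (∀ i, ev (MvPolynomial.X i) ≠ 0) ∧
        Algebra.trdeg ℂ Ω = (dim X : Cardinal) := by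
  have : (idealOf X).IsPrime := hX
  let B := MvPolynomial ι ℂ ⧸ idealOf X
  let Ω := FractionRing B
  let ev : MvPolynomial ι ℂ →ₐ[ℂ] Ω :=
    (IsScalarTower.toAlgHom ℂ B Ω).comp (Ideal.Quotient.mkₐ ℂ (idealOf X))
  have hev : ∀ f, ev f = 0 ↔ f ∈ idealOf X := by
    intro f
    change algebraMap B Ω (Ideal.Quotient.mk (idealOf X) f) = 0 ↔ _
    rw [← Ideal.Quotient.eq_zero_iff_mem]
    exact map_eq_zero_iff _ (IsFractionRing.injective B Ω)
  refine ⟨Ω, inferInstance, inferInstance, ev, hev, fun i h => ?_, ?_⟩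
  · rw [hev] at h
    obtain ⟨x, hx⟩ := hX.nonempty
    have h1 := mem_idealOf.1 h x hx
    rw [eval_X] at h1
    exact ht x hx i h1
  · have h1 : Algebra.trdeg ℂ B + Algebra.trdeg B Ω = Algebra.trdeg ℂ Ω := trdeg_add_eq ℂ B (A := Ω)
    have h2 : Algebra.trdeg B Ω = 0 := by
      have : Algebra.IsAlgebraic B Ω := IsLocalization.isAlgebraic Ω (nonZeroDivisors B)
      exact trdeg_eq_zero
    rw [← h1, h2, add_zero]
    exact trdeg_eq_dim hX

/-- The polynomial with nonnegative exponents. -/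
noncomputable def shifted {κ : Type} (N : ℕ) (b : κ → ι → ℤ) (j : κ) : MvPolynomial ι ℂ :=
  ∏ i, MvPolynomial.X i ^ ((N : ℤ) + b j i).toNat

theorem shifted_div {κ : Type} {N : ℕ} {b : κ → ι → ℤ} {j : κ} (h : ∀ i, 0 ≤ (N : ℤ) + b j i)
    {F : Type} [Field F] [Algebra ℂ F] (φ : MvPolynomial ι ℂ →ₐ[ℂ] F)
    (hφ : ∀ i, φ (MvPolynomial.X i) ≠ 0) :
    φ (shifted N b j) / φ ((∏ i, MvPolynomial.X i) ^ N) =
      chr (fun i => φ (MvPolynomial.X i)) (b j) := by
  have h0 : φ ((∏ i, MvPolynomial.X i) ^ N) ≠ 0 := by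
    rw [map_pow, map_prod]
    exact pow_ne_zero _ (Finset.prod_ne_zero_iff.2 fun i _ => hφ i)
  rw [div_eq_iff h0, shifted, map_pow, map_prod, map_prod, chr, ← Finset.prod_pow,
    ← Finset.prod_mul_distrib]
  refine Finset.prod_congr rfl fun i _ => ?_
  rw [map_pow, ← zpow_natCast, ← zpow_natCast, ← zpow_add₀ (hφ i)]
  congr 1
  rw [Int.toNat_of_nonneg (h i), add_comm]

theorem exists_bound {κ : Type} [Finite κ] (b : κ → ι → ℤ) :
    ∃ N : ℕ, ∀ j i, 0 ≤ (N : ℤ) + b j i := by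
  cases nonempty_fintype κ
  refine ⟨∑ j, ∑ i, (b j i).natAbs, fun j i => ?_⟩
  have h1 : (b j i).natAbs ≤ ∑ i, (b j i).natAbs :=
    Finset.single_le_sum (f := fun i => (b j i).natAbs) (fun _ _ => Nat.zero_le _) (Finset.mem_univ i)
  have h2 : ∑ i, (b j i).natAbs ≤ ∑ j, ∑ i, (b j i).natAbs :=
    Finset.single_le_sum (f := fun j => ∑ i, (b j i).natAbs) (fun _ _ => Nat.zero_le _)
      (Finset.mem_univ j)
  omega

/-- A polynomial in the monomials vanishes at the generic point if and only if it vanishes on `X`. -/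
theorem aeval_generic {κ : Type} [Finite κ] (ht : InTorus X) {Ω : Type} [Field Ω] [Algebra ℂ Ω]
    {ev : MvPolynomial ι ℂ →ₐ[ℂ] Ω} (hev : ∀ f, ev f = 0 ↔ f ∈ idealOf X)
    (hev0 : ∀ i, ev (MvPolynomial.X i) ≠ 0) (b : κ → ι → ℤ) (G : MvPolynomial κ ℂ) :
    aeval (mono b fun i => ev (MvPolynomial.X i)) G = 0 ↔ ∀ x ∈ X, eval (mono b x) G = 0 := by
  obtain ⟨N, hN⟩ := exists_bound b
  obtain ⟨e, H, hH⟩ := Helper834.EC.clear_denom ((∏ i, MvPolynomial.X i) ^ N :
    MvPolynomial ι ℂ) (shifted N b) G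
  have key : ∀ (F : Type) [Field F] [Algebra ℂ F] (φ : MvPolynomial ι ℂ →ₐ[ℂ] F),
      (∀ i, φ (MvPolynomial.X i) ≠ 0) →
      (φ H = 0 ↔ aeval (mono b fun i => φ (MvPolynomial.X i)) G = 0) := by
    intro F _ _ φ hφ
    have h0 : φ ((∏ i, MvPolynomial.X i) ^ N) ≠ 0 := by
      rw [map_pow, map_prod]
      exact pow_ne_zero _ (Finset.prod_ne_zero_iff.2 fun i _ => hφ i)
    have h1 := hH F φ h0
    have h2 : (fun t => φ (shifted N b t) / φ ((∏ i, MvPolynomial.X i) ^ N)) =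
        mono b fun i => φ (MvPolynomial.X i) := by
      funext j
      exact shifted_div (hN j) φ hφ
    rw [h2] at h1
    rw [h1, mul_eq_zero]
    constructor
    · rintro (h3 | h3)
      · exact absurd h3 (pow_ne_zero _ h0)
      · exact h3
    · exact Or.inr
  rw [← key Ω ev hev0, hev, mem_idealOf]
  refine forall₂_congr fun x hx => ?_
  have h3 := key ℂ (aeval x) (fun i => by rw [aeval_X]; exact ht x hx i)
  simp only [aeval_X] at h3
  rw [← aeval_eq_eval, ← aeval_eq_eval]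
  exact h3

theorem idealOf_mono_eq {κ : Type} [Finite κ] (ht : InTorus X) {Ω : Type} [Field Ω] [Algebra ℂ Ω]
    {ev : MvPolynomial ι ℂ →ₐ[ℂ] Ω} (hev : ∀ f, ev f = 0 ↔ f ∈ idealOf X)
    (hev0 : ∀ i, ev (MvPolynomial.X i) ≠ 0) (b : κ → ι → ℤ) :
    idealOf (mono b '' X) =
      RingHom.ker (aeval (mono b fun i => ev (MvPolynomial.X i)) : MvPolynomial κ ℂ →ₐ[ℂ] Ω) := by
  ext G
  rw [RingHom.mem_ker, aeval_generic ht hev hev0, mem_idealOf]
  constructor
  · intro h x hx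
    exact h _ ⟨x, hx, rfl⟩
  · rintro h _ ⟨x, hx, rfl⟩
    exact h x hx

theorem Irred.mono {κ : Type} [Finite κ] (hX : Irred X) (ht : InTorus X) (b : κ → ι → ℤ) :
    Irred (mono b '' X) := by
  obtain ⟨Ω, _, _, ev, hev, hev0, -⟩ := exists_generic hX ht
  unfold Irred
  rw [idealOf_mono_eq ht hev hev0]
  exact RingHom.ker_isPrime _

theorem dim_mono_le {κ : Type} [Finite κ] (hX : Irred X) (ht : InTorus X) (b : κ → ι → ℤ) :
    dim (ZP.mono b '' X) ≤ dim X := by
  obtain ⟨Ω, _, _, ev, hev, hev0, htr⟩ := exists_generic hX ht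
  have h1 := trdeg_eq_dim (hX.mono ht b)
  rw [idealOf_mono_eq ht hev hev0] at h1
  have h2 := trdeg_le_of_injective
    (Ideal.kerLiftAlg (aeval (ZP.mono b fun i => ev (MvPolynomial.X i)) :
      MvPolynomial κ ℂ →ₐ[ℂ] Ω)) (Ideal.kerLiftAlg_injective _)
  rw [h1, htr] at h2
  exact_mod_cast h2

/-- The character `a` is constant, equal to `c`, on `X`. -/
def IsConst (X : Set (ι → ℂ)) (a : ι → ℤ) (c : ℂ) : Prop := ∀ x ∈ X, chr x a = c

theorem isConst_generic (ht : InTorus X) {Ω : Type} [Field Ω] [Algebra ℂ Ω]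
    {ev : MvPolynomial ι ℂ →ₐ[ℂ] Ω} (hev : ∀ f, ev f = 0 ↔ f ∈ idealOf X)
    (hev0 : ∀ i, ev (MvPolynomial.X i) ≠ 0) (a : ι → ℤ) (c : ℂ) :
    IsConst X a c ↔ chr (fun i => ev (MvPolynomial.X i)) a = algebraMap ℂ Ω c := by
  have h := aeval_generic ht hev hev0 (fun _ : Unit => a) (MvPolynomial.X () - C c)
  rw [map_sub, aeval_X, sub_eq_zero] at h
  have h1 : (aeval (ZP.mono (fun _ : Unit => a) fun i => ev (MvPolynomial.X i)) (C c) : Ω) =
      algebraMap ℂ Ω c := by
    rw [← algebraMap_eq, AlgHom.commutes]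
  rw [h1] at h
  unfold IsConst
  show _ ↔ ZP.mono (fun _ : Unit => a) (fun i => ev (MvPolynomial.X i)) () = _
  rw [h]
  refine forall₂_congr fun x _ => ?_
  rw [map_sub, eval_X, eval_C, sub_eq_zero]
  rfl

theorem mem_range_of_isIntegral {Ω : Type} [Field Ω] [Algebra ℂ Ω] {w : Ω} (h : IsIntegral ℂ w) :
    ∃ c, algebraMap ℂ Ω c = w := by
  obtain ⟨y, hy⟩ := (IsAlgClosed.algebraMap_bijective_of_isIntegral (k := ℂ)
    (K := integralClosure ℂ Ω)).2 ⟨w, h⟩
  exact ⟨y, congrArg Subtype.val hy⟩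

/-- If `m a` is constant on `X` then `a` is constant on `X`. -/
theorem IsConst.of_smul (hX : Irred X) (ht : InTorus X) {a : ι → ℤ} {m : ℤ} (hm : m ≠ 0) {c : ℂ}
    (h : IsConst X (m • a) c) : ∃ c', IsConst X a c' ∧ c' ^ m = c := by
  obtain ⟨Ω, _, _, ev, hev, hev0, -⟩ := exists_generic hX ht
  set z : ι → Ω := fun i => ev (MvPolynomial.X i) with hz
  have h1 := (isConst_generic ht hev hev0 (m • a) c).1 h
  rw [chr_zsmul] at h1
  have h2 : chr z a ^ m.natAbs = algebraMap ℂ Ω c ∨ chr z a ^ m.natAbs = algebraMap ℂ Ω c⁻¹ := by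
    rcases Int.natAbs_eq m with h3 | h3
    · left
      rw [h3, zpow_natCast] at h1
      exact h1
    · right
      rw [h3, zpow_neg, zpow_natCast] at h1
      rw [map_inv₀, ← h1, inv_inv]
  have h4 : IsIntegral ℂ (chr z a) := by
    have hpos : 0 < m.natAbs := Int.natAbs_pos.2 hm
    rcases h2 with h3 | h3
    · exact IsIntegral.of_pow hpos (by rw [h3]; exact isIntegral_algebraMap)
    · exact IsIntegral.of_pow hpos (by rw [h3]; exact isIntegral_algebraMap)
  obtain ⟨c', hc'⟩ := mem_range_of_isIntegral h4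
  refine ⟨c', (isConst_generic ht hev hev0 a c').2 hc'.symm, ?_⟩
  apply (algebraMap ℂ Ω).injective
  rw [map_zpow₀, hc', h1]

end Generic

/-! ### Adapted bases -/

theorem exists_adapted {ι : Type} [Fintype ι] (L : Submodule ℤ (ι → ℤ))
    (hL : ∀ a : ι → ℤ, ∀ m : ℤ, m ≠ 0 → m • a ∈ L → a ∈ L) :
    ∃ (e h : ℕ) (b : Module.Basis (Fin e ⊕ Fin h) ℤ (ι → ℤ)), (∀ i, b (Sum.inl i) ∈ L) ∧
      (∀ a ∈ L, ∀ j, b.repr a (Sum.inr j) = 0) ∧ e = Module.finrank ℤ L := by
  have h1 : Module.IsTorsionFree ℤ ((ι → ℤ) ⧸ L) := by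
    apply Module.IsTorsionFree.of_smul_eq_zero
    intro m x hx
    obtain ⟨a, rfl⟩ := Submodule.Quotient.mk_surjective L x
    by_cases hm : m = 0
    · exact Or.inl hm
    · right
      rw [← Submodule.Quotient.mk_smul, Submodule.Quotient.mk_eq_zero] at hx
      rw [Submodule.Quotient.mk_eq_zero]
      exact hL a m hm hx
  have h2 : Module.Free ℤ ((ι → ℤ) ⧸ L) := Module.free_of_finite_type_torsion_free'
  let bL := Module.finBasis ℤ L
  let bQ := Module.finBasis ℤ ((ι → ℤ) ⧸ L)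
  refine ⟨_, _, Module.Basis.sumQuot bL bQ, fun i => ?_, fun a ha j => ?_, rfl⟩
  · rw [Module.Basis.sumQuot_inl]
    exact (bL i).2
  · exact Module.Basis.sumQuot_repr_inr_of_mem bL bQ a ha j

/-- A basis gives an isomorphism of tori: the inverse monomial map. -/
theorem exists_inverse {ι κ : Type} [Fintype ι] [Fintype κ] (b : Module.Basis κ ℤ (ι → ℤ)) :
    ∃ c : ι → κ → ℤ, (∀ (F : Type) [Field F] (x : ι → F), (∀ i, x i ≠ 0) →
      mono c (mono b x) = x) ∧ (∀ (F : Type) [Field F] (y : κ → F), (∀ i, y i ≠ 0) →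
      mono (fun j => b j) (mono c y) = y) := by
  classical
  refine ⟨fun i j => b.repr (Pi.single i 1) j, ?_, ?_⟩
  · intro F _ x hx
    funext i
    show chr (mono b x) (fun j => b.repr (Pi.single i 1) j) = x i
    rw [chr_mono _ hx, b.sum_repr, chr_single]
  · intro F _ y hy
    funext j
    show chr (mono (fun i j => b.repr (Pi.single i 1) j) y) (b j) = y j
    rw [chr_mono _ hy]
    have h1 : (∑ i, (b j) i • fun k => b.repr (Pi.single i 1) k) = Pi.single j (1 : ℤ) := by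
      funext k
      rw [Finset.sum_apply]
      have h2 : b.repr (∑ i, (b j) i • (Pi.single i (1 : ℤ) : ι → ℤ)) k = b.repr (b j) k := by
        congr 2
        funext i
        simp [Finset.sum_apply, Pi.single_apply]
      rw [map_sum, Finsupp.finsetSum_apply] at h2
      simp only [map_smul, Finsupp.smul_apply, Module.Basis.repr_self] at h2
      simp only [Pi.smul_apply]
      rw [h2, Finsupp.single_apply, Pi.single_apply]
      simp [eq_comm]
    rw [h1, chr_single]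

end Pool.Agent.T6.H15.ZP
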