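import Pool.Agent.T6.H15.ZP.Final

/-!
# Reduction to points
-/

set_option autoImplicit false

open MvPolynomial

namespace Pool.Agent.T6.H15.ZP

/-- Specialization of algebraic elements over a polynomial ring. -/
theorem exists_specialization {σ : Type} {Ω : Type} [Field Ω] [Algebra ℂ Ω] (y : σ → Ω)
    (hy : AlgebraicIndependent ℂ y) (E : Finset Ω)
    (hE : ∀ c ∈ E, IsAlgebraic (Algebra.adjoin ℂ (Set.range y)) c) :
    ∃ g : MvPolynomial σ ℂ, g ≠ 0 ∧ ∀ ζ : σ → ℂ, eval ζ g ≠ 0 →
      ∃ (C : Subalgebra ℂ Ω) (ψ : C →ₐ[ℂ] ℂ), (∀ c ∈ E, c ∈ C) ∧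
        ∀ i, ∃ h : y i ∈ C, ψ ⟨y i, h⟩ = ζ i := by
  classical
  letI algP : Algebra (MvPolynomial σ ℂ) Ω :=
    (aeval y : MvPolynomial σ ℂ →ₐ[ℂ] Ω).toRingHom.toAlgebra
  have hmapP : ∀ p : MvPolynomial σ ℂ, algebraMap (MvPolynomial σ ℂ) Ω p = aeval y p := fun _ => rfl
  haveI towP : IsScalarTower ℂ (MvPolynomial σ ℂ) Ω := IsScalarTower.of_algebraMap_eq fun c => by
    rw [hmapP, algebraMap_eq, algHom_C]
  have hinjP : Function.Injective (algebraMap (MvPolynomial σ ℂ) Ω) := hy
  -- the elements are algebraic over the polynomial ring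
  have halg : ∀ c ∈ E, ∃ r : MvPolynomial σ ℂ, r ≠ 0 ∧ IsIntegral (MvPolynomial σ ℂ) (r • c) := by
    intro c hc
    have h1 : IsAlgebraic (MvPolynomial σ ℂ) c := by
      obtain ⟨q, hq0, hq⟩ := hE c hc
      have hsurj : ∀ a : Algebra.adjoin ℂ (Set.range y), ∃ p : MvPolynomial σ ℂ,
          aeval y p = (a : Ω) := by
        rintro ⟨a, ha⟩
        rw [Algebra.adjoin_range_eq_range_aeval] at ha
        exact ha
      choose pre hpre using hsurj
      let Q : Polynomial (MvPolynomial σ ℂ) :=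
        ∑ i ∈ Finset.range (q.natDegree + 1), Polynomial.monomial i (pre (q.coeff i))
      have hcoeff : ∀ i, i ≤ q.natDegree → Q.coeff i = pre (q.coeff i) := by
        intro i hi
        simp only [Q, Polynomial.finset_sum_coeff, Polynomial.coeff_monomial]
        rw [Finset.sum_eq_single i]
        · simp
        · intro j _ hj
          simp [hj]
        · intro h
          exact absurd (Finset.mem_range.2 (Nat.lt_succ_of_le hi)) h
      refine ⟨Q, ?_, ?_⟩
      · intro h0
        apply hq0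
        have h2 := hcoeff q.natDegree le_rfl
        rw [h0, Polynomial.coeff_zero] at h2
        have h3 := hpre (q.coeff q.natDegree)
        rw [← h2, map_zero] at h3
        have h4 : q.leadingCoeff = 0 := Subtype.ext h3.symm
        exact Polynomial.leadingCoeff_eq_zero.1 h4
      · simp only [Q, map_sum, Polynomial.aeval_monomial]
        rw [Polynomial.aeval_def, Polynomial.eval₂_eq_sum_range] at hq
        rw [← hq]
        refine Finset.sum_congr rfl fun i _ => ?_
        rw [hmapP, hpre]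
        rfl
    obtain ⟨r, hr, h2⟩ := h1.exists_integral_multiple
    exact ⟨r, hr, h2⟩
  choose! r hr0 hrint using halg
  set g : MvPolynomial σ ℂ := ∏ c ∈ E, r c with hg
  have hg0 : g ≠ 0 := Finset.prod_ne_zero_iff.2 hr0
  refine ⟨g, hg0, fun ζ hζ => ?_⟩
  let Pg := Localization.Away g
  have hgΩ : IsUnit ((algebraMap (MvPolynomial σ ℂ) Ω) g) :=
    IsUnit.mk0 _ ((map_ne_zero_iff _ hinjP).2 hg0)
  have hgC : IsUnit ((eval ζ : MvPolynomial σ ℂ →+* ℂ) g) := IsUnit.mk0 _ hζ
  letI algPg : Algebra Pg Ω := (IsLocalization.Away.lift g hgΩ : Pg →+* Ω).toAlgebra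
  have hmapPg : ∀ p : MvPolynomial σ ℂ, algebraMap Pg Ω (algebraMap (MvPolynomial σ ℂ) Pg p) =
      algebraMap (MvPolynomial σ ℂ) Ω p := fun p => IsLocalization.Away.lift_eq g hgΩ p
  haveI towPg : IsScalarTower (MvPolynomial σ ℂ) Pg Ω :=
    IsScalarTower.of_algebraMap_eq fun p => (hmapPg p).symm
  haveI towC : IsScalarTower ℂ Pg Ω := IsScalarTower.of_algebraMap_eq fun c => by
    rw [IsScalarTower.algebraMap_apply ℂ (MvPolynomial σ ℂ) Pg, hmapPg,
      ← IsScalarTower.algebraMap_apply]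
  have hinjPg : Function.Injective (algebraMap Pg Ω) := by
    rw [injective_iff_map_eq_zero]
    intro a ha
    obtain ⟨p, ⟨s, hs⟩, rfl⟩ := IsLocalization.exists_mk'_eq (Submonoid.powers g) a
    have h1 : algebraMap Pg Ω (algebraMap (MvPolynomial σ ℂ) Pg s) *
        algebraMap Pg Ω (IsLocalization.mk' Pg p ⟨s, hs⟩) =
        algebraMap Pg Ω (algebraMap (MvPolynomial σ ℂ) Pg p) := by
      rw [← map_mul]
      exact congrArg _ (IsLocalization.mk'_spec' Pg p ⟨s, hs⟩)
    rw [ha, mul_zero, hmapPg] at h1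
    have h2 : p = 0 := (map_eq_zero_iff _ hinjP).1 h1.symm
    rw [h2, IsLocalization.mk'_zero]
  let ev : Pg →+* ℂ := IsLocalization.Away.lift g hgC
  have hev : ∀ p : MvPolynomial σ ℂ, ev (algebraMap (MvPolynomial σ ℂ) Pg p) = eval ζ p :=
    fun p => IsLocalization.Away.lift_eq g hgC p
  have hevC : ∀ c : ℂ, ev (algebraMap ℂ Pg c) = c := by
    intro c
    rw [IsScalarTower.algebraMap_apply ℂ (MvPolynomial σ ℂ) Pg, hev, algebraMap_eq, eval_C]
  have hsurj : Function.Surjective ev := fun c => ⟨_, hevC c⟩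
  haveI hmax : (RingHom.ker ev).IsMaximal := RingHom.ker_isMaximal_of_surjective ev hsurj
  let C' := integralClosure Pg Ω
  have hker : RingHom.ker (algebraMap Pg C') ≤ RingHom.ker ev := by
    intro a ha
    rw [RingHom.mem_ker] at ha
    have h1 : algebraMap Pg Ω a = 0 := by
      have h2 := congrArg (algebraMap C' Ω) ha
      rw [map_zero, ← IsScalarTower.algebraMap_apply] at h2
      exact h2
    rw [(map_eq_zero_iff _ hinjPg).1 h1]
    exact Submodule.zero_mem _
  obtain ⟨n, hn, hncomap⟩ := Ideal.exists_ideal_over_maximal_of_isIntegral (S := C')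
    (RingHom.ker ev) hker
  letI fieldL : Field (C' ⧸ n) := Ideal.Quotient.field n
  let π : C' →+* C' ⧸ n := Ideal.Quotient.mk n
  let ιL : ℂ →+* C' ⧸ n := (π.comp (algebraMap Pg C')).comp (algebraMap ℂ Pg)
  have hcompat : ∀ a : Pg, ιL (ev a) = π (algebraMap Pg C' a) := by
    intro a
    have h1 : algebraMap ℂ Pg (ev a) - a ∈ RingHom.ker ev := by
      rw [RingHom.mem_ker, map_sub, hevC, sub_self]
    rw [← hncomap, Ideal.mem_comap, map_sub] at h1
    exact Ideal.Quotient.eq.2 h1
  have hint : ιL.IsIntegral := by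
    intro l
    obtain ⟨c, rfl⟩ := Ideal.Quotient.mk_surjective l
    obtain ⟨p, hp, hpc⟩ := (integralClosure.isIntegral c : IsIntegral Pg c)
    refine ⟨p.map ev, hp.map ev, ?_⟩
    rw [Polynomial.eval₂_map]
    have h1 : ιL.comp ev = π.comp (algebraMap Pg C') := RingHom.ext hcompat
    rw [h1]
    have h2 := congrArg π hpc
    rw [map_zero, Polynomial.hom_eval₂] at h2
    exact h2
  have hbij := IsAlgClosed.ringHom_bijective_of_isIntegral ιL hint
  let eqv : ℂ ≃+* C' ⧸ n := RingEquiv.ofBijective ιL hbij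
  have heqv : ∀ c, eqv.symm (ιL c) = c := fun c => eqv.symm_apply_apply c
  let C : Subalgebra ℂ Ω := C'.restrictScalars ℂ
  let ψ : C →ₐ[ℂ] ℂ :=
    { toRingHom := (eqv.symm : (C' ⧸ n) →+* ℂ).comp π
      commutes' := fun c => by
        have h1 : (algebraMap ℂ C c : C) = (algebraMap Pg C' (algebraMap ℂ Pg c) : C') := by
          apply Subtype.ext
          show algebraMap ℂ Ω c = algebraMap Pg Ω (algebraMap ℂ Pg c)
          exact IsScalarTower.algebraMap_apply ℂ Pg Ω c
        show eqv.symm (π (algebraMap ℂ C c)) = c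
        rw [h1]
        exact heqv c }
  refine ⟨C, ψ, ?_, ?_⟩
  · intro c hc
    show c ∈ C'
    have h1 : IsIntegral Pg (r c • c) := (hrint c hc).tower_top
    obtain ⟨q, hq⟩ : r c ∣ g := Finset.dvd_prod_of_mem r hc
    have hu : IsUnit (algebraMap (MvPolynomial σ ℂ) Pg g) := IsLocalization.Away.algebraMap_isUnit g
    have hu' : IsUnit (algebraMap (MvPolynomial σ ℂ) Pg (r c * q)) := by rw [← hq]; exact hu
    rw [map_mul] at hu'
    obtain ⟨u, hu⟩ := isUnit_of_mul_isUnit_left hu'
    have h2 : c = ((u⁻¹ : Pgˣ) : Pg) • (r c • c) := by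
      have h3 : r c • c = (u : Pg) • c := by
        rw [hu, Algebra.smul_def, Algebra.smul_def, hmapPg]
      rw [h3, smul_smul, Units.inv_mul, one_smul]
    rw [h2, Algebra.smul_def]
    exact isIntegral_algebraMap.mul h1
  · intro i
    have h1 : y i = algebraMap Pg Ω (algebraMap (MvPolynomial σ ℂ) Pg (X i)) := by
      rw [hmapPg, hmapP, aeval_X]
    have h2 : y i ∈ C' := by
      rw [h1]
      exact Subalgebra.algebraMap_mem C' _
    refine ⟨h2, ?_⟩
    have h3 : (⟨y i, h2⟩ : C') = algebraMap Pg C' (algebraMap (MvPolynomial σ ℂ) Pg (X i)) :=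
      Subtype.ext h1
    show eqv.symm (π ⟨y i, h2⟩) = ζ i
    rw [h3, ← hcompat, heqv, hev, eval_X]

theorem infinite_rootU : {c : ℂ | RootU c}.Infinite := by
  refine Set.infinite_of_injective_forall_mem
    (f := fun m : ℕ => Complex.exp (2 * Real.pi * Complex.I / ((m + 1 : ℕ) : ℂ))) ?_ ?_
  · intro m k hmk
    have h1 := Complex.isPrimitiveRoot_exp (m + 1) (Nat.succ_ne_zero m)
    have h2 := Complex.isPrimitiveRoot_exp (k + 1) (Nat.succ_ne_zero k)
    have h3 : Complex.exp (2 * Real.pi * Complex.I / ((m + 1 : ℕ) : ℂ)) =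
      Complex.exp (2 * Real.pi * Complex.I / ((k + 1 : ℕ) : ℂ)) := hmk
    rw [h3] at h1
    have h4 := h1.unique h2
    omega
  · intro m
    exact ⟨m + 1, Nat.succ_pos m, (Complex.isPrimitiveRoot_exp (m + 1) (Nat.succ_ne_zero m)).pow_eq_one⟩

/-- A point in general position of the closure of `X`, with torsion coordinates in a transcendence
basis. -/
theorem exists_point {ι : Type} [Fintype ι] {X : Set (ι → ℂ)} (hX : Irred X) (ht : InTorus X)
    {f : MvPolynomial ι ℂ} (hf : f ∉ idealOf X) :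
    ∃ (x : ι → ℂ) (s : Finset ι), (∀ i, x i ≠ 0) ∧ (∀ p ∈ idealOf X, eval x p = 0) ∧
      eval x f ≠ 0 ∧ Indep X (fun i : s => (i : ι)) ∧ s.card = dim X ∧ ∀ i ∈ s, RootU (x i) := by
  classical
  obtain ⟨Ω, _, _, ev, hev, hev0, htr⟩ := exists_generic hX ht
  obtain ⟨s, hs, hsc⟩ := exists_indep hX
  set z : ι → Ω := fun i => ev (MvPolynomial.X i) with hz
  have hevz : ∀ p, ev p = aeval z p := by
    intro p
    have h1 : ev = aeval z := by
      ext i
      simp [hz]
    rw [h1]
  have hy : AlgebraicIndependent ℂ (fun i : s => z i) := by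
    rw [algebraicIndependent_iff]
    intro p hp
    apply hs
    intro x hx
    have h1 : ev (rename (fun i : s => (i : ι)) p) = 0 := by
      rw [hevz, aeval_rename]
      exact hp
    have h2 := mem_idealOf.1 ((hev _).1 h1) x hx
    rw [eval_rename] at h2
    exact h2
  have hbasis : IsTranscendenceBasis ℂ (fun i : s => z i) := by
    apply hy.isTranscendenceBasis_of_trdeg_le_of_finite
    rw [htr, ← hsc, Cardinal.mk_fintype, Fintype.card_coe]
  have halg := hbasis.isAlgebraic
  set F : Ω := ev f * ∏ i, z i with hF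
  have hF0 : F ≠ 0 := by
    refine mul_ne_zero (fun h => hf ((hev f).1 h)) (Finset.prod_ne_zero_iff.2 fun i _ => hev0 i)
  obtain ⟨g, hg0, hg⟩ := exists_specialization (fun i : s => z i) hy
    (insert F⁻¹ (Finset.univ.image z)) (fun c _ => halg.isAlgebraic c)
  obtain ⟨ζ, hζ, hgζ⟩ : ∃ ζ : s → ℂ, (∀ i, RootU (ζ i)) ∧ eval ζ g ≠ 0 := by
    by_contra hcon
    push Not at hcon
    apply hg0
    refine MvPolynomial.funext_set (p := g) (q := 0) (fun _ : s => {c : ℂ | RootU c})
      (fun _ => infinite_rootU) ?_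
    intro x hx
    rw [map_zero]
    exact hcon x fun i => hx i (Set.mem_univ i)
  obtain ⟨C, ψ, hC, hψ⟩ := hg ζ hgζ
  have hzC : ∀ i, z i ∈ C := fun i =>
    hC _ (Finset.mem_insert_of_mem (Finset.mem_image_of_mem z (Finset.mem_univ i)))
  set x : ι → ℂ := fun i => ψ ⟨z i, hzC i⟩ with hx
  have hpC : ∀ p, ev p ∈ C := by
    intro p
    rw [hevz]
    induction p using MvPolynomial.induction_on with
    | C a =>
      rw [algHom_C]
      exact C.algebraMap_mem a
    | add p q hp hq => rw [map_add]; exact C.add_mem hp hq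
    | mul_X p i hp => rw [map_mul, aeval_X]; exact C.mul_mem hp (hzC i)
  have hψp : ∀ p, ψ ⟨ev p, hpC p⟩ = eval x p := by
    intro p
    let E : MvPolynomial ι ℂ →ₐ[ℂ] C := ev.codRestrict C hpC
    have h1 : ψ.comp E = aeval x := by
      ext i
      simp only [AlgHom.comp_apply, aeval_X]
      rfl
    rw [← aeval_eq_eval]
    exact DFunLike.congr_fun h1 p
  have hFC : F ∈ C := C.mul_mem (hpC f) (Subalgebra.prod_mem C fun i _ => hzC i)
  have hFinv : F⁻¹ ∈ C := hC _ (Finset.mem_insert_self _ _)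
  have h1 : ψ ⟨F, hFC⟩ * ψ ⟨F⁻¹, hFinv⟩ = 1 := by
    rw [← map_mul]
    have h2 : (⟨F, hFC⟩ : C) * ⟨F⁻¹, hFinv⟩ = 1 := Subtype.ext (mul_inv_cancel₀ hF0)
    rw [h2, map_one]
  have h2 : ψ ⟨F, hFC⟩ = eval x f * ∏ i, x i := by
    have h3 : (⟨F, hFC⟩ : C) = ⟨ev f, hpC f⟩ * ∏ i, ⟨z i, hzC i⟩ := by
      apply Subtype.ext
      rw [Subalgebra.coe_mul, SubmonoidClass.coe_finsetProd]
    rw [h3, map_mul, map_prod, hψp]
  have h3 : eval x f * ∏ i, x i ≠ 0 := by
    rw [← h2]
    exact left_ne_zero_of_mul_eq_one h1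
  refine ⟨x, s, fun i => ?_, fun p hp => ?_, left_ne_zero_of_mul h3, hs, hsc, fun i hi => ?_⟩
  · exact (Finset.prod_ne_zero_iff.1 (right_ne_zero_of_mul h3)) i (Finset.mem_univ i)
  · rw [← hψp]
    have h4 : (⟨ev p, hpC p⟩ : C) = 0 := Subtype.ext ((hev p).2 hp)
    rw [h4, map_zero]
  · obtain ⟨h4, h5⟩ := hψ ⟨i, hi⟩
    have h6 : x i = ζ ⟨i, hi⟩ := h5
    rw [h6]
    exact hζ _

section

variable {n : ℕ}

/-- the binomial -/
theorem exists_binomial (a : Fin n → ℤ) (c : ℂ) : ∃ f : MvPolynomial (Fin n) ℂ,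
    ∀ y : Fin n → ℂ, (∀ i, y i ≠ 0) → (eval y f = 0 ↔ chr y a = c) := by
  refine ⟨∏ i, X i ^ (a i).toNat - C c * ∏ i, X i ^ (-a i).toNat, fun y hy => ?_⟩
  have h1 : (∏ i, y i ^ a i) * ∏ i, y i ^ (-a i).toNat = ∏ i, y i ^ (a i).toNat := by
    rw [← Finset.prod_mul_distrib]
    refine Finset.prod_congr rfl fun i _ => ?_
    rw [← zpow_natCast, ← zpow_natCast, ← zpow_add₀ (hy i)]
    congr 1
    omega
  have h2 : (∏ i, y i ^ (-a i).toNat) ≠ 0 :=
    Finset.prod_ne_zero_iff.2 fun i _ => pow_ne_zero _ (hy i)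
  have h3 : eval y (∏ i, X i ^ (a i).toNat - C c * ∏ i, X i ^ (-a i).toNat :
      MvPolynomial (Fin n) ℂ) = (∏ i, y i ^ a i - c) * ∏ i, y i ^ (-a i).toNat := by
    rw [sub_mul, h1]
    simp
  rw [h3, mul_eq_zero, sub_eq_zero]
  exact ⟨fun h => h.resolve_right h2, Or.inl⟩

/-- The relations of the point: those of `X` and those between the torsion coordinates. -/
theorem finrank_sup_ge {X : Set (Fin n → ℂ)} {s : Finset (Fin n)} (hX : Irred X)
    (ht : InTorus X) (hs : Indep X (fun i : s => (i : Fin n))) {M : Submodule ℤ (Fin n → ℤ)}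
    (hM : TorsOn X M) {Λ : Submodule ℤ (Fin n → ℤ)} (h1 : M ≤ Λ)
    (h2 : ∀ i ∈ s, Pi.single i (1 : ℤ) ∈ Λ) :
    Module.finrank ℤ M + s.card ≤ Module.finrank ℤ Λ := by
  classical
  let φ : (M × (s → ℤ)) →ₗ[ℤ] (Fin n → ℤ) := M.subtype.coprod
    (Fintype.linearCombination ℤ fun i : s => (Pi.single (i : Fin n) (1 : ℤ) : Fin n → ℤ))
  have hφ : ∀ p, φ p = (p.1 : Fin n → ℤ) + ∑ i : s, p.2 i • Pi.single (i : Fin n) (1 : ℤ) := by
    intro p
    show M.subtype.coprod _ p = _
    rw [LinearMap.coprod_apply, Fintype.linearCombination_apply]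
    rfl
  have hinj : Function.Injective φ := by
    rw [← LinearMap.ker_eq_bot, Submodule.eq_bot_iff]
    intro p hp
    rw [LinearMap.mem_ker, hφ] at hp
    obtain ⟨c, hc, hconst⟩ := hM _ p.1.2
    -- the character of the independent coordinates is constant
    have h3 : ∀ x ∈ X, ∏ i : s, x i ^ p.2 i = c⁻¹ := by
      intro x hx
      have h4 := congrArg (chr x) hp
      rw [chr_add (ht x hx), hconst x hx, chr_zero, chr_sum (ht x hx)] at h4
      have h5 : ∏ i : s, chr x (p.2 i • (Pi.single (i : Fin n) (1 : ℤ) : Fin n → ℤ)) =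
          ∏ i : s, x i ^ p.2 i :=
        Finset.prod_congr rfl fun i _ => by rw [chr_zsmul, chr_single]
      rw [h5] at h4
      rw [eq_comm]
      exact inv_eq_of_mul_eq_one_right h4
    have h6 : p.2 = 0 := by
      have h7 : (∏ i : s, MvPolynomial.X i ^ (p.2 i).toNat -
          C c⁻¹ * ∏ i : s, MvPolynomial.X i ^ (-p.2 i).toNat : MvPolynomial s ℂ) = 0 := by
        apply hs
        intro x hx
        have h8 : (∏ i : s, x i ^ p.2 i) * ∏ i : s, x i ^ (-p.2 i).toNat =
            ∏ i : s, x i ^ (p.2 i).toNat := by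
          rw [← Finset.prod_mul_distrib]
          refine Finset.prod_congr rfl fun i _ => ?_
          rw [← zpow_natCast, ← zpow_natCast, ← zpow_add₀ (ht x hx i)]
          congr 1
          omega
        rw [h3 x hx] at h8
        simp only [map_sub, map_mul, map_prod, map_pow, eval_X, eval_C]
        rw [h8, sub_self]
      have h9 : ∀ y : s → ℂ, (∏ i, y i ^ (p.2 i).toNat) = c⁻¹ * ∏ i, y i ^ (-p.2 i).toNat := by
        intro y
        have h10 := congrArg (eval y) h7
        simp only [map_sub, map_mul, map_prod, map_pow, eval_X, eval_C, map_zero] at h10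
        exact sub_eq_zero.1 h10
      funext i
      have h11 := h9 fun _ => 1
      simp only [one_pow, Finset.prod_const_one, mul_one] at h11
      have h12 := h9 fun k => if k = i then 2 else 1
      rw [← h11, one_mul, Finset.prod_eq_single i, Finset.prod_eq_single i] at h12
      · simp only [if_true] at h12
        have h13 := Nat.pow_right_injective (le_refl 2)
          (show 2 ^ (p.2 i).toNat = 2 ^ (-p.2 i).toNat by exact_mod_cast h12)
        show p.2 i = 0
        omega
      · intro k _ hk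
        simp [hk]
      · intro h
        exact absurd (Finset.mem_univ i) h
      · intro k _ hk
        simp [hk]
      · intro h
        exact absurd (Finset.mem_univ i) h
    have h7 : p.1 = 0 := by
      rw [h6] at hp
      simp only [Pi.zero_apply, zero_smul, Finset.sum_const_zero, add_zero] at hp
      exact Subtype.ext hp
    exact Prod.ext h7 h6
  have hrange : LinearMap.range φ ≤ Λ := by
    rintro _ ⟨p, rfl⟩
    rw [hφ]
    exact Λ.add_mem (h1 p.1.2) (Λ.sum_mem fun i _ => Λ.smul_mem _ (h2 i i.2))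
  have h3 := Submodule.finrank_mono hrange
  rw [LinearMap.finrank_range_of_inj hinj, Module.finrank_prod,
    Module.finrank_fintype_fun_eq_card, Fintype.card_coe] at h3
  exact h3

/-- Density of the points with many relations and of the strongly atypical subvarieties. -/
theorem points_iff (t : ℕ) : PointsNotDense n t ↔ NotDenseFor n t := by
  classical
  constructor
  · intro H S hV hnd
    obtain ⟨f, hf, hall⟩ := H S hV hnd
    refine ⟨f, hf, ?_⟩
    rintro X ⟨hXV, hX, M, η, hM, hη, hXη, hdim⟩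
    by_contra hfX
    have htX : InTorus X := fun x hx => (hXV hx).1
    obtain ⟨x, s, hx0, hxX, hxf, hs, hsc, hsr⟩ := exists_point hX htX hfX
    have hxV : x ∈ zeroSet S := by
      refine ⟨hx0, fun p hp => hxX p ?_⟩
      rw [mem_idealOf]
      exact fun y hy => (hXV hy).2 p hp
    have htx : InTorus ({x} : Set (Fin n → ℂ)) := by
      rintro y rfl
      exact hx0
    have hMX : TorsOn X M := fun a ha => ⟨chr η a, RootU.chr hη.rootU a, fun y hy => (hXη hy).2 a ha⟩
    have h1 : M ≤ torsLat {x} htx := by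
      intro a ha
      obtain ⟨c, hc, hconst⟩ := hMX a ha
      obtain ⟨g, hg⟩ := exists_binomial a c
      have h2 : g ∈ idealOf X := by
        rw [mem_idealOf]
        exact fun y hy => (hg y (htX y hy)).2 (hconst y hy)
      refine ⟨c, hc, ?_⟩
      rintro y rfl
      exact (hg y hx0).1 (hxX g h2)
    have h2 : ∀ i ∈ s, Pi.single i (1 : ℤ) ∈ torsLat {x} htx := by
      intro i hi
      refine ⟨x i, hsr i hi, ?_⟩
      rintro y rfl
      exact chr_single _ _
    have h3 := finrank_sup_ge hX htX hs hMX h1 h2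
    apply hxf
    apply hall x hxV
    obtain ⟨hTi, hTd⟩ := coset_irred_dim hM hη.ne_zero
    rw [kdim_eq hV, kdim_eq hTi, kdim_eq hX] at hdim
    have hdim' : dim (zeroSet S) + dim (coset M η) + t ≤ dim X + n := by exact_mod_cast hdim
    refine ⟨torsLat {x} htx, ?_, ?_⟩
    · rw [kdim_eq hV]
      have h4 : dim (zeroSet S) + t ≤ Module.finrank ℤ (torsLat {x} htx) := by omega
      exact_mod_cast h4
    · rintro a ⟨c, hc, hconst⟩
      have h4 : chr x a = c := hconst x rfl
      rw [← h4] at hc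
      exact hc
  · intro H S hV hnd
    obtain ⟨f, hf, hall⟩ := H S hV hnd
    refine ⟨f, hf, fun x hx hrel => ?_⟩
    obtain ⟨M, hM, hrel⟩ := hrel
    have htx : InTorus ({x} : Set (Fin n → ℂ)) := by
      rintro y rfl
      exact hx.1
    have hxi := irred_singleton x
    obtain ⟨η, hη, hxη⟩ := exists_coset hxi htx
    have hle : M ≤ torsLat {x} htx := by
      intro a ha
      refine ⟨chr x a, hrel a ha, ?_⟩
      rintro y rfl
      rfl
    have hrank := Submodule.finrank_mono hle
    obtain ⟨hTi, hTd⟩ := coset_irred_dim (torsLat_sat hxi htx) hη.ne_zero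
    have h1 : Atypical (zeroSet S) {x} t := by
      refine ⟨by rintro y rfl; exact hx, hxi, _, η, torsLat_sat hxi htx, hη, hxη, ?_⟩
      rw [kdim_eq hV] at hM
      rw [kdim_eq hV, kdim_eq hTi, kdim_eq hxi, dim_singleton]
      have h2 : dim (zeroSet S) + t ≤ Module.finrank ℤ M := by exact_mod_cast hM
      have h3 : dim (zeroSet S) + dim (coset (torsLat {x} htx) η) + t ≤ 0 + n := by omega
      exact_mod_cast h3
    exact mem_idealOf.1 (hall {x} h1) x rfl

/-- **The main theorem.** -/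
theorem main :
    (∀ ε : ℝ, 0 ≤ ε → (∀ m : ℕ, ∃ N, m ≤ N ∧ PointsNotDense N ⌈ε * N⌉₊) →
      ∀ n : ℕ, ε * n < 1 → Zilber n) ∧
    ((∀ n, Zilber n) ↔ ∀ ε : ℝ, 0 < ε → ∀ m : ℕ, ∃ N, m ≤ N ∧ PointsNotDense N ⌈ε * N⌉₊) := by
  constructor
  · intro ε hε H n hn
    refine zilber_of_notDense hε (fun m => ?_) hn
    obtain ⟨N, hN, h⟩ := H m
    exact ⟨N, hN, (points_iff _).1 h⟩
  · rw [zilber_iff]
    simp only [points_iff]

end

end Pool.Agent.T6.H15.ZP
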