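import Pool.Agent.T6.H15.ZP.Mono

/-!
# Strongly atypical subvarieties of fibred powers
-/

set_option autoImplicit false

open MvPolynomial

namespace Pool.Agent.T6.H15.ZP

/-- `c` is a root of unity. -/
def RootU (c : ℂ) : Prop := ∃ m : ℕ, 0 < m ∧ c ^ m = 1

theorem RootU.mul {c d : ℂ} (hc : RootU c) (hd : RootU d) : RootU (c * d) := by
  obtain ⟨m, hm, h1⟩ := hc
  obtain ⟨n, hn, h2⟩ := hd
  refine ⟨m * n, Nat.mul_pos hm hn, ?_⟩
  rw [mul_pow, pow_mul, h1, one_pow, mul_comm m n, pow_mul, h2, one_pow, mul_one]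

theorem RootU.inv {c : ℂ} (hc : RootU c) : RootU c⁻¹ := by
  obtain ⟨m, hm, h1⟩ := hc
  exact ⟨m, hm, by rw [inv_pow, h1, inv_one]⟩

section Defs

variable {ι : Type} [Fintype ι]

/-- The characters in `M` are constant on `X`, with roots of unity as values. -/
def TorsOn (X : Set (ι → ℂ)) (M : Submodule ℤ (ι → ℤ)) : Prop :=
  ∀ a ∈ M, ∃ c, RootU c ∧ IsConst X a c

/-- `X` is an irreducible subset of `W` of excess at least `t`. -/
def HasExcess (W X : Set (ι → ℂ)) (t : ℕ) : Prop :=
  Irred X ∧ X ⊆ W ∧ ∃ M, TorsOn X M ∧ dim W + t ≤ dim X + Module.finrank ℤ M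

/-- The union of the irreducible subsets of `W` of excess at least `t` is dense in `W`. -/
def DenseExcess (W : Set (ι → ℂ)) (t : ℕ) : Prop :=
  ∀ f, f ∉ idealOf W → ∃ X, HasExcess W X t ∧ f ∉ idealOf X

/-- `W` is not contained in a proper special subvariety. -/
def Nonspecial (W : Set (ι → ℂ)) : Prop := ∀ a, a ≠ 0 → ∀ c, RootU c → ¬ IsConst W a c

end Defs

theorem dim_mono_set {ι : Type} [Finite ι] {X Y : Set (ι → ℂ)} (hX : Irred X) (hY : Irred Y)
    (h : X ⊆ Y) : dim X ≤ dim Y := by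
  obtain ⟨s, hs, hc⟩ := exists_indep hX
  have h1 : Indep Y (fun i : s => (i : ι)) := fun p hp => hs p fun x hx => hp x (h hx)
  have h2 := h1.card_le hY
  rw [← hc]
  simpa using h2

theorem irred_singleton {ι : Type} (g : ι → ℂ) : Irred ({g} : Set (ι → ℂ)) := by
  rw [irred_iff]
  refine ⟨⟨g, rfl⟩, fun p q hp hq hpq => ?_⟩
  obtain ⟨x, hx, h1⟩ := exists_of_not_mem hp
  obtain ⟨y, hy, h2⟩ := exists_of_not_mem hq
  rw [Set.mem_singleton_iff] at hx hy
  subst hx
  subst hy
  have h3 := mem_idealOf.1 hpq _ rfl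
  rw [map_mul, mul_eq_zero] at h3
  exact h3.elim h1 h2

theorem dim_singleton {ι : Type} [Finite ι] (g : ι → ℂ) : dim ({g} : Set (ι → ℂ)) = 0 := by
  obtain ⟨s, hs, hc⟩ := exists_indep (irred_singleton g)
  rw [← hc, Finset.card_eq_zero]
  by_contra hne
  obtain ⟨i, hi⟩ := Finset.nonempty_iff_ne_empty.2 hne
  have h1 := hs (MvPolynomial.X ⟨i, hi⟩ - C (g i)) (by
    rintro x rfl
    simp)
  have h2 := congrArg (eval fun _ : s => g i + 1) h1
  simp at h2

/-- The exponents supported on the image of `β`. -/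
noncomputable def push {ι : Type} [Fintype ι] {e : ℕ} (β : Fin e → ι) :
    (Fin e → ℤ) →ₗ[ℤ] (ι → ℤ) :=
  Fintype.linearCombination ℤ fun j => (Set.indicator {β j} (fun _ => (1 : ℤ)) : ι → ℤ)

theorem push_apply {ι : Type} [Fintype ι] [DecidableEq ι] {e : ℕ} (β : Fin e → ι)
    (a : Fin e → ℤ) : push β a = ∑ j, a j • Pi.single (β j) (1 : ℤ) := by
  have h1 : ∀ j, (Set.indicator {β j} (fun _ => (1 : ℤ)) : ι → ℤ) = Pi.single (β j) (1 : ℤ) := by
    intro j
    funext i
    by_cases h : i = β j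
    · subst h
      rw [Set.indicator_of_mem (Set.mem_singleton _), Pi.single_eq_same]
    · rw [Set.indicator_of_notMem (fun h' => h (Set.mem_singleton_iff.1 h')),
        Pi.single_eq_of_ne h]
  unfold push
  rw [Fintype.linearCombination_apply]
  refine Finset.sum_congr rfl fun j _ => ?_
  rw [h1]

theorem chr_push {ι : Type} [Fintype ι] {e : ℕ} (β : Fin e → ι) {w : ι → ℂ}
    (hw : ∀ i, w i ≠ 0) {g : Fin e → ℂ} (hg : ∀ i, w (β i) = g i) (a : Fin e → ℤ) :
    chr w (push β a) = chr g a := by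
  classical
  rw [push_apply, chr_sum hw]
  show _ = ∏ j, g j ^ a j
  refine Finset.prod_congr rfl fun j _ => ?_
  rw [chr_zsmul, chr_single, hg]

theorem push_inl {ι κ : Type} [Fintype ι] [Fintype κ] {e : ℕ} (β : Fin e → ι)
    (a : Fin e → ℤ) : push (fun j => (Sum.inl (β j) : ι ⊕ κ)) a = Sum.elim (push β a) 0 := by
  classical
  rw [push_apply, push_apply]
  funext i
  rcases i with i | i
  · simp [Finset.sum_apply, Pi.single_apply]
  · simp [Finset.sum_apply, Pi.single_apply]

theorem chr_elim {ι κ : Type} [Fintype ι] [Fintype κ] {F : Type} [Field F] (w : ι → F)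
    (v : κ → F) (a : ι ⊕ κ → ℤ) :
    chr (Sum.elim w v) a = chr w (fun i => a (Sum.inl i)) * chr v (fun j => a (Sum.inr j)) := by
  unfold chr
  rw [Fintype.prod_sum_type]
  rfl

/-- The data obtained from `V` by a change of coordinates: the constant coordinates `g`, and `V'` on
which no character is constant. -/
structure Split {e h : ℕ} (g : Fin e → ℂ) (V' : Set (Fin h → ℂ)) : Prop where
  gne : ∀ i, g i ≠ 0
  torus : InTorus V'
  irred : Irred V'
  indep : ∀ a : Fin e → ℤ, a ≠ 0 → ¬ RootU (chr g a)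
  nonconst : ∀ a : Fin h → ℤ, a ≠ 0 → ∀ c, ¬ IsConst V' a c
  dense : ∀ f, f ∉ idealOf V' → ∃ X', Irred X' ∧ X' ⊆ V' ∧ f ∉ idealOf X' ∧
    ∃ M : Submodule ℤ (Fin e ⊕ Fin h → ℤ), TorsOn (prodSet {g} X') M ∧
      dim V' + 1 ≤ dim X' + Module.finrank ℤ M

/-- The properties of the fibred power `W` with `k` factors. -/
structure IsPower {e : ℕ} (h k : ℕ) (g : Fin e → ℂ) {ι : Type} [Fintype ι] (β : Fin e → ι)
    (W : Set (ι → ℂ)) : Prop where
  card : Fintype.card ι = e + k * h
  torus : InTorus W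
  irred : Irred W
  base : ∀ w ∈ W, ∀ i, w (β i) = g i
  const : ∀ a c, IsConst W a c → ∃ a0, a = push β a0
  dense : DenseExcess W k

theorem isPower_zero {e : ℕ} (h : ℕ) {g : Fin e → ℂ} (hg : ∀ i, g i ≠ 0) :
    IsPower h 0 g (fun i : Fin e => i) {g} where
  card := by simp
  torus := by
    rintro x rfl i
    exact hg i
  irred := irred_singleton g
  base := by
    rintro w rfl i
    rfl
  const := by
    intro a c _
    refine ⟨a, ?_⟩
    rw [push_apply]
    funext i
    simp [Finset.sum_apply, Pi.single_apply]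
  dense := fun f hf => ⟨{g}, ⟨irred_singleton g, subset_rfl, ⊥, fun a ha => ⟨1, ⟨1, one_pos,
    one_pow 1⟩, fun x _ => by rw [(Submodule.mem_bot ℤ).1 ha, chr_zero]⟩, by simp⟩, hf⟩

/-- The linear map which combines the relations on the two factors. -/
noncomputable def combine {ι : Type} [Fintype ι] {e h : ℕ} (β : Fin e → ι)
    (M : Submodule ℤ (ι → ℤ)) (M' : Submodule ℤ (Fin e ⊕ Fin h → ℤ)) :
    (M × M') →ₗ[ℤ] (ι ⊕ Fin h → ℤ) where
  toFun p := Sum.elim ((p.1 : ι → ℤ) + push β (fun i => (p.2 : Fin e ⊕ Fin h → ℤ) (Sum.inl i)))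
    (fun j => (p.2 : Fin e ⊕ Fin h → ℤ) (Sum.inr j))
  map_add' p q := by
    have h1 : (fun i => ((p + q).2 : Fin e ⊕ Fin h → ℤ) (Sum.inl i)) =
      (fun i => (p.2 : Fin e ⊕ Fin h → ℤ) (Sum.inl i)) +
        (fun i => (q.2 : Fin e ⊕ Fin h → ℤ) (Sum.inl i)) := rfl
    rw [h1, map_add]
    funext i
    rcases i with i | j
    · simp only [Sum.elim_inl, Pi.add_apply, Prod.fst_add, Submodule.coe_add]
      ring
    · rfl
  map_smul' m p := by
    have h1 : (fun i => ((m • p).2 : Fin e ⊕ Fin h → ℤ) (Sum.inl i)) =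
      m • (fun i => (p.2 : Fin e ⊕ Fin h → ℤ) (Sum.inl i)) := rfl
    rw [h1, map_smul]
    funext i
    rcases i with i | j
    · simp only [Sum.elim_inl, Pi.add_apply, Prod.smul_fst, Submodule.coe_smul, Pi.smul_apply,
        RingHom.id_apply, smul_eq_mul]
      ring
    · rfl

theorem isPower_succ {e h k : ℕ} {g : Fin e → ℂ} {V' : Set (Fin h → ℂ)} (hS : Split g V')
    {ι : Type} [Fintype ι] {β : Fin e → ι} {W : Set (ι → ℂ)} (hW : IsPower h k g β W) :
    IsPower h (k + 1) g (fun i => (Sum.inl (β i) : ι ⊕ Fin h)) (prodSet W V') where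
  card := by
    rw [Fintype.card_sum, Fintype.card_fin, hW.card]
    ring
  torus := by
    rintro z hz i
    obtain ⟨w, hw, v, hv, rfl⟩ := exists_elim hz
    rcases i with i | j
    · exact hW.torus w hw i
    · exact hS.torus v hv j
  irred := hW.irred.prod hS.irred
  base := by
    rintro z hz i
    exact hW.base _ hz.1 i
  const := by
    intro a c ha
    obtain ⟨w0, hw0⟩ := hW.irred.nonempty
    obtain ⟨v0, hv0⟩ := hS.irred.nonempty
    have h1 : (fun j => a (Sum.inr j)) = 0 := by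
      by_contra hne
      refine hS.nonconst _ hne (c / chr w0 (fun i => a (Sum.inl i))) fun v hv => ?_
      rw [eq_div_iff (chr_ne_zero (hW.torus w0 hw0) _), mul_comm, ← chr_elim]
      exact ha _ (elim_mem hw0 hv)
    obtain ⟨a0, ha0⟩ := hW.const (fun i => a (Sum.inl i)) c (fun w hw => by
      have h2 := ha _ (elim_mem hw hv0)
      rw [chr_elim, h1, chr_zero, mul_one] at h2
      exact h2)
    refine ⟨a0, ?_⟩
    rw [push_inl, ← ha0]
    funext i
    rcases i with i | j
    · rfl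
    · exact congrFun h1 j
  dense := by
    intro f hf
    obtain ⟨z, hz, hfz⟩ := exists_of_not_mem hf
    obtain ⟨w, hw, v, hv, rfl⟩ := exists_elim hz
    obtain ⟨X, ⟨hX, hXW, M, hM, hdim⟩, hfX⟩ := hW.dense (fixR v f)
      (not_mem_of_eval hw (by rwa [eval_fixR]))
    obtain ⟨x, hx, hfx⟩ := exists_of_not_mem hfX
    rw [eval_fixR] at hfx
    obtain ⟨X', hX', hX'V, hfX', M', hM', hdim'⟩ := hS.dense (fixL x f)
      (not_mem_of_eval hv (by rwa [eval_fixL]))
    obtain ⟨x', hx', hfx'⟩ := exists_of_not_mem hfX'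
    rw [eval_fixL] at hfx'
    have hxt := hW.torus x (hXW hx)
    refine ⟨prodSet X X', ⟨hX.prod hX', fun z hz => ⟨hXW hz.1, hX'V hz.2⟩,
      LinearMap.range (combine β M M'), ?_, ?_⟩, not_mem_of_eval (elim_mem hx hx') hfx'⟩
    · rintro _ ⟨p, rfl⟩
      obtain ⟨c, hc, h1⟩ := hM _ p.1.2
      obtain ⟨d, hd, h2⟩ := hM' _ p.2.2
      refine ⟨c * d, hc.mul hd, ?_⟩
      intro z hz
      obtain ⟨y, hy, y', hy', rfl⟩ := exists_elim hz
      have hyt := hW.torus y (hXW hy)
      rw [chr_elim]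
      show chr y ((p.1 : ι → ℤ) + push β (fun i => (p.2 : Fin e ⊕ Fin h → ℤ) (Sum.inl i))) *
        chr y' (fun j => (p.2 : Fin e ⊕ Fin h → ℤ) (Sum.inr j)) = _
      rw [chr_add hyt, chr_push β hyt (hW.base y (hXW hy)), h1 y hy, mul_assoc, ← chr_elim,
        h2 _ (elim_mem rfl hy')]
    · have hinj : Function.Injective (combine (h := h) β M M') := by
        rw [← LinearMap.ker_eq_bot, Submodule.eq_bot_iff]
        rintro p hp
        rw [LinearMap.mem_ker] at hp
        have h1 : (p.1 : ι → ℤ) + push β (fun i => (p.2 : Fin e ⊕ Fin h → ℤ) (Sum.inl i)) = 0 := by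
          funext i
          exact congrFun hp (Sum.inl i)
        have h2 : (fun j => (p.2 : Fin e ⊕ Fin h → ℤ) (Sum.inr j)) = 0 := by
          funext j
          exact congrFun hp (Sum.inr j)
        have h3 : (fun i => (p.2 : Fin e ⊕ Fin h → ℤ) (Sum.inl i)) = 0 := by
          by_contra hne
          apply hS.indep _ hne
          obtain ⟨c, hc, h4⟩ := hM _ p.1.2
          have h5 := congrArg (chr x) h1
          rw [chr_add hxt, chr_push β hxt (hW.base x (hXW hx)), h4 x hx, chr_zero] at h5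
          have h6 : chr g (fun i => (p.2 : Fin e ⊕ Fin h → ℤ) (Sum.inl i)) = c⁻¹ := by
            rw [eq_comm]
            exact inv_eq_of_mul_eq_one_right h5
          rw [h6]
          exact hc.inv
        have h7 : p.2 = 0 := by
          apply Subtype.ext
          funext i
          rcases i with i | j
          · exact congrFun h3 i
          · exact congrFun h2 j
        have h8 : p.1 = 0 := by
          apply Subtype.ext
          rw [h3, map_zero, add_zero] at h1
          exact h1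
        exact Prod.ext h8 h7
      rw [LinearMap.finrank_range_of_inj hinj, Module.finrank_prod, dim_prod hW.irred hS.irred,
        dim_prod hX hX']
      omega

theorem exists_power {e h : ℕ} {g : Fin e → ℂ} {V' : Set (Fin h → ℂ)} (hS : Split g V') (k : ℕ) :
    ∃ (ι : Type) (_ : Fintype ι) (β : Fin e → ι) (W : Set (ι → ℂ)), IsPower h k g β W := by
  induction k with
  | zero => exact ⟨Fin e, inferInstance, _, _, isPower_zero h hS.gne⟩
  | succ k ih =>
    obtain ⟨ι, _, β, W, hW⟩ := ih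
    exact ⟨ι ⊕ Fin h, inferInstance, _, _, isPower_succ hS hW⟩

theorem IsPower.nonspecial {e h k : ℕ} {g : Fin e → ℂ} {V' : Set (Fin h → ℂ)} (hS : Split g V')
    {ι : Type} [Fintype ι] {β : Fin e → ι} {W : Set (ι → ℂ)} (hW : IsPower h k g β W) :
    Nonspecial W := by
  intro a ha c hc hac
  obtain ⟨a0, rfl⟩ := hW.const a c hac
  obtain ⟨w, hw⟩ := hW.irred.nonempty
  have h1 := hac w hw
  rw [chr_push β (hW.torus w hw) (hW.base w hw)] at h1
  by_cases h2 : a0 = 0
  · apply ha
    rw [h2, map_zero]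
  · apply hS.indep a0 h2
    rw [h1]
    exact hc

end Pool.Agent.T6.H15.ZP
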